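import Mathlib

/-!
# Monster potentials and irreducible Virasoro modules: definitions
-/

open Polynomial

namespace Pool.Agent.Monster

/-! ## Monster potentials -/

/-- The potential `x² + (β² - 1/4) / x² - 2 (d/dx)² ln P(x⁴)`. The second derivative of the
logarithm is the derivative of the logarithmic derivative. -/
noncomputable def pot (β : ℂ) (P : ℂ[X]) (x : ℂ) : ℂ :=
  x ^ 2 + (β ^ 2 - 1 / 4) / x ^ 2 - 2 * deriv (logDeriv fun y => P.eval (y ^ 4)) x

/-- `ψ` is a holomorphic solution of `-ψ'' + U ψ = E ψ` on the open set `D`. -/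
def IsSol (U : ℂ → ℂ) (E : ℂ) (D : Set ℂ) (ψ : ℂ → ℂ) : Prop :=
  DifferentiableOn ℂ ψ D ∧ ∀ x ∈ D, -deriv (deriv ψ) x + U x * ψ x = E * ψ x

/-- Every solution of `-ψ'' + U ψ = E ψ` has trivial monodromy around `a`: on some punctured disc
around `a` the solutions are single valued, that is, for every point `x₀` of the punctured disc and
all initial data at `x₀` there is a solution on the whole punctured disc with these data. -/
def TrivMono (U : ℂ → ℂ) (E a : ℂ) : Prop :=
  ∃ r > 0, ∀ x₀ ∈ Metric.ball a r \ {a}, ∀ u v : ℂ,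
    ∃ ψ, IsSol U E (Metric.ball a r \ {a}) ψ ∧ ψ x₀ = u ∧ deriv ψ x₀ = v

/-- `a` is a pole of the function `F`. -/
def IsPole (F : ℂ → ℂ) (a : ℂ) : Prop := MeromorphicAt F a ∧ meromorphicOrderAt F a < 0

/-- The monic polynomials `P` of degree `n` whose potential is a monster potential of momentum
`β`: for every `E`, all solutions have trivial monodromy around each pole of
`(d/dx)² ln P(x⁴)`. -/
def monsters (β : ℂ) (n : ℕ) : Set ℂ[X] :=
  {P | P.Monic ∧ P.natDegree = n ∧ ∀ E a : ℂ,
    IsPole (deriv (logDeriv fun y => P.eval (y ^ 4))) a → TrivMono (pot β P) E a}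

/-! ## The Virasoro algebra and its highest weight modules -/

/-- The relations `L_m L_n = L_n L_m + (m - n) L_{m+n} + c (m³ - m) / 12 δ_{m+n,0}`. -/
inductive VirRel (c : ℂ) : FreeAlgebra ℂ ℤ → FreeAlgebra ℂ ℤ → Prop
  | comm (m n : ℤ) : VirRel c (FreeAlgebra.ι ℂ m * FreeAlgebra.ι ℂ n)
      (FreeAlgebra.ι ℂ n * FreeAlgebra.ι ℂ m + ((m : ℂ) - n) • FreeAlgebra.ι ℂ (m + n)
        + algebraMap ℂ _ (if m + n = 0 then c * ((m : ℂ) ^ 3 - m) / 12 else 0))

/-- The enveloping algebra of the Virasoro algebra, with the central element acting by `c`. -/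
abbrev VirAlg (c : ℂ) : Type := RingQuot (VirRel c)

/-- the generator `L_n` -/
noncomputable def Lg (c : ℂ) (n : ℤ) : VirAlg c :=
  RingQuot.mkAlgHom ℂ (VirRel c) (FreeAlgebra.ι ℂ n)

/-- the left ideal generated by `L_n`, `n > 0`, and `L_0 - h` -/
noncomputable def vermaIdeal (c h : ℂ) : Submodule (VirAlg c) (VirAlg c) :=
  Submodule.span (VirAlg c) ({x | ∃ n : ℤ, 0 < n ∧ x = Lg c n} ∪ {Lg c 0 - algebraMap ℂ _ h})

/-- the Verma module of central charge `c` and highest weight `h` -/
def Verma (c h : ℂ) : Type := VirAlg c ⧸ vermaIdeal c h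

noncomputable instance (c h : ℂ) : AddCommGroup (Verma c h) :=
  inferInstanceAs (AddCommGroup (VirAlg c ⧸ vermaIdeal c h))

noncomputable instance (c h : ℂ) : Module (VirAlg c) (Verma c h) :=
  inferInstanceAs (Module (VirAlg c) (VirAlg c ⧸ vermaIdeal c h))

/-- the maximal proper submodule of the Verma module: the sum of all its proper submodules -/
noncomputable def maxSub (c h : ℂ) : Submodule (VirAlg c) (Verma c h) :=
  sSup {N | N ≠ ⊤}

/-- the irreducible highest weight module -/
def Irr (c h : ℂ) : Type := Verma c h ⧸ maxSub c h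

noncomputable instance (c h : ℂ) : AddCommGroup (Irr c h) :=
  inferInstanceAs (AddCommGroup (Verma c h ⧸ maxSub c h))

noncomputable instance (c h : ℂ) : Module (VirAlg c) (Irr c h) :=
  inferInstanceAs (Module (VirAlg c) (Verma c h ⧸ maxSub c h))

/-- the complex numbers act on the irreducible module as elements of the algebra -/
noncomputable instance (c h : ℂ) : Module ℂ (Irr c h) :=
  Module.compHom (Irr c h) (algebraMap ℂ (VirAlg c))

theorem smul_eq (c h : ℂ) (t : ℂ) (w : Irr c h) : t • w = algebraMap ℂ (VirAlg c) t • w := rfl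

/-- the degree `n` part of the irreducible highest weight module, that is, the eigenspace of
`L_0` with eigenvalue `h + n` -/
noncomputable def degPart (c h : ℂ) (n : ℕ) : Submodule ℂ (Irr c h) where
  carrier := {w | Lg c 0 • w = (h + n : ℂ) • w}
  add_mem' := by
    intro a b ha hb
    simp only [Set.mem_ofPred_eq] at *
    rw [smul_add, smul_add, ha, hb]
  zero_mem' := by
    simp only [Set.mem_ofPred_eq]
    rw [smul_zero, smul_zero]
  smul_mem' := by
    intro t a ha
    simp only [Set.mem_ofPred_eq] at *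
    rw [smul_comm (h + n : ℂ) t a, ← ha, smul_eq, smul_eq, smul_smul, smul_smul,
      Algebra.commutes]

/-- the dimension of the degree `n` part of the irreducible highest weight module -/
noncomputable def irrDim (c h : ℂ) (n : ℕ) : ℕ := Module.finrank ℂ (degPart c h n)

end Pool.Agent.Monster
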