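import Pool.Agent.Monster.Defs

/-! The Fock representation of the Virasoro algebra. -/

open MvPolynomial

namespace Pool.Agent.Monster

/-- the Fock space; the variable `X j` is the creation operator of degree `j + 1` -/
abbrev FR : Type := MvPolynomial ℕ ℂ

abbrev OpR : Type := Module.End ℂ FR

/-- the creation operators -/
noncomputable def xk (k : ℤ) : FR := if 0 < k then X (k.toNat - 1) else 0

/-- the Heisenberg generators -/
noncomputable def am (μ : ℂ) (n : ℤ) : OpR :=
  if 0 < n then (n : ℂ) • (pderiv (R := ℂ) (n.toNat - 1)).toLinearMap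
  else if n < 0 then LinearMap.mulLeft ℂ (X ((-n).toNat - 1)) else μ • 1

theorem am_pos (μ : ℂ) {n : ℤ} (h : 0 < n) (p : FR) :
    am μ n p = (n : ℂ) • pderiv (n.toNat - 1) p := by
  unfold am
  rw [if_pos h]
  rfl

theorem am_neg (μ : ℂ) {n : ℤ} (h : n < 0) (p : FR) : am μ n p = X ((-n).toNat - 1) * p := by
  unfold am
  rw [if_neg (by omega), if_pos h]
  rfl

theorem am_zero (μ : ℂ) : am μ 0 = μ • 1 := by
  unfold am
  rw [if_neg (by omega), if_neg (by omega)]

theorem pderiv_comm (i j : ℕ) (p : FR) : pderiv i (pderiv j p) = pderiv j (pderiv i p) := by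
  have h : ⁅(pderiv i : Derivation ℂ FR FR), (pderiv j : Derivation ℂ FR FR)⁆ = 0 := by
    apply derivation_ext
    intro l
    rw [Derivation.commutator_apply]
    simp only [pderiv_X, Derivation.coe_zero, Pi.zero_apply]
    have h1 : ∀ a b : ℕ, pderiv a ((Pi.single b (1 : FR) : ℕ → FR) l) = 0 := by
      intro a b
      by_cases hb : l = b
      · subst hb
        rw [Pi.single_eq_same]
        exact pderiv_one
      · rw [Pi.single_eq_of_ne hb, map_zero]
    rw [h1, h1, sub_zero]
  have h2 := congrArg (fun D : Derivation ℂ FR FR => D p) h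
  simp only [Derivation.commutator_apply, Derivation.coe_zero, Pi.zero_apply] at h2
  exact sub_eq_zero.1 h2

theorem pderiv_X_mul (i j : ℕ) (p : FR) :
    pderiv i (X j * p) = X j * pderiv i p + (if i = j then p else 0) := by
  rw [Derivation.leibniz, smul_eq_mul, smul_eq_mul]
  by_cases h : i = j
  · subst h
    rw [pderiv_X_self, if_pos rfl, mul_one]
  · rw [pderiv_X_of_ne (fun h' => h h'.symm), if_neg h, mul_zero]

/-- Heisenberg relations -/
theorem heis (μ : ℂ) (m n : ℤ) (p : FR) :
    am μ m (am μ n p) = am μ n (am μ m p) + (if m + n = 0 then (m : ℂ) else 0) • p := by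
  rcases lt_trichotomy m 0 with hm | hm | hm
  · rcases lt_trichotomy n 0 with hn | hn | hn
    · rw [am_neg μ hm, am_neg μ hn, am_neg μ hn, am_neg μ hm, if_neg (by omega), zero_smul]
      ring
    · subst hn
      rw [am_zero, if_neg (by omega), zero_smul]
      simp
    · rw [am_neg μ hm, am_pos μ hn, am_pos μ hn, am_neg μ hm, pderiv_X_mul]
      by_cases h : m + n = 0
      · rw [if_pos h, if_pos (by omega)]
        have : (n : ℂ) = -(m : ℂ) := by
          have : n = -m := by omega
          rw [this]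
          push_cast
          ring
        rw [this, smul_add, neg_smul, neg_smul, neg_smul]
        rw [mul_neg, mul_smul_comm]
        ring
      · rw [if_neg h, if_neg (by omega), add_zero, zero_smul, add_zero, mul_smul_comm]
  · subst hm
    rw [am_zero]
    simp
  · rcases lt_trichotomy n 0 with hn | hn | hn
    · rw [am_pos μ hm, am_neg μ hn, am_neg μ hn, am_pos μ hm, pderiv_X_mul]
      by_cases h : m + n = 0
      · rw [if_pos h, if_pos (by omega), smul_add, mul_smul_comm]
      · rw [if_neg h, if_neg (by omega), add_zero, zero_smul, add_zero, mul_smul_comm]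
    · subst hn
      rw [am_zero, if_neg (by omega), zero_smul]
      simp
    · rw [am_pos μ hm, am_pos μ hn, am_pos μ hn, am_pos μ hm, if_neg (by omega), zero_smul,
        add_zero, Derivation.map_smul, Derivation.map_smul, pderiv_comm, smul_comm]

/-- the derivation part of `L_n` -/
noncomputable def Dn (n : ℤ) : Derivation ℂ FR FR :=
  mkDerivation ℂ (fun j : ℕ => ((j : ℂ) + 1) • xk ((j : ℤ) + 1 - n))

theorem Dn_X (n : ℤ) (j : ℕ) : Dn n (X j) = ((j : ℂ) + 1) • xk ((j : ℤ) + 1 - n) :=
  mkDerivation_X _ _ _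

/-- commutator of the derivation part with the Heisenberg generators -/
theorem Dn_am (μ : ℂ) (n j : ℤ) (p : FR) : Dn n (am μ j p) = am μ j (Dn n p)
    - (if (0 < j ∧ 0 < n + j) ∨ (j < 0 ∧ n + j < 0) then (j : ℂ) • am μ (n + j) p else 0) := by
  rcases lt_trichotomy j 0 with hj | hj | hj
  · rw [am_neg μ hj, am_neg μ hj, Derivation.leibniz, Dn_X, smul_eq_mul, smul_eq_mul]
    have h1 : (((-j).toNat - 1 : ℕ) : ℤ) + 1 = -j := by omega
    have h2 : ((((-j).toNat - 1 : ℕ) : ℂ)) + 1 = -(j : ℂ) := by
      have := congrArg (fun z : ℤ => (z : ℂ)) h1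
      push_cast at this
      exact_mod_cast this
    rw [h1, h2]
    by_cases h : n + j < 0
    · rw [if_pos (Or.inr ⟨hj, h⟩), am_neg μ h]
      unfold xk
      rw [if_pos (by omega)]
      have h3 : (-j - n).toNat = (-(n + j)).toNat := by congr 1; ring
      rw [h3, neg_smul, mul_neg, mul_smul_comm, mul_comm p]
      ring
    · rw [if_neg (by omega)]
      unfold xk
      rw [if_neg (by omega), smul_zero, mul_zero]
      ring
  · subst hj
    rw [am_zero, if_neg (by omega)]
    simp
  · rw [am_pos μ hj, am_pos μ hj, Derivation.map_smul]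
    set i : ℕ := j.toNat - 1 with hi
    have hij : (i : ℤ) + 1 = j := by omega
    have hcomm : ⁅Dn n, (pderiv i : Derivation ℂ FR FR)⁆
        = if 0 < n + j then (-((n + j : ℤ) : ℂ)) • (pderiv ((n + j).toNat - 1)
          : Derivation ℂ FR FR) else 0 := by
      apply derivation_ext
      intro l
      rw [Derivation.commutator_apply, Dn_X]
      have h0 : Dn n (pderiv i (X l : FR)) = 0 := by
        by_cases hl : l = i
        · subst hl
          rw [pderiv_X_self]
          exact Derivation.map_one_eq_zero _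
        · rw [pderiv_X_of_ne hl, map_zero]
      rw [h0, zero_sub, Derivation.map_smul]
      unfold xk
      by_cases h1 : (l : ℤ) + 1 = n + j
      · have hpos : 0 < n + j := by omega
        rw [if_pos hpos, if_pos (by omega)]
        have e1 : ((l : ℤ) + 1 - n).toNat - 1 = i := by omega
        have e2 : (n + j).toNat - 1 = l := by omega
        rw [e1, pderiv_X_self, e2, Derivation.smul_apply, pderiv_X_self, neg_smul, ← h1]
        push_cast
        rfl
      · have e0 : pderiv i (if 0 < (l : ℤ) + 1 - n then X (((l : ℤ) + 1 - n).toNat - 1)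
            else (0 : FR)) = 0 := by
          split_ifs with h2
          · apply pderiv_X_of_ne
            omega
          · exact map_zero _
        rw [e0, smul_zero, neg_zero]
        split_ifs with h2
        · rw [Derivation.smul_apply, pderiv_X_of_ne (by omega), smul_zero]
        · rfl
    have h2 := congrArg (fun D : Derivation ℂ FR FR => D p) hcomm
    simp only [Derivation.commutator_apply] at h2
    by_cases h : 0 < n + j
    · rw [if_pos (Or.inl ⟨hj, h⟩), am_pos μ h]
      rw [if_pos h, Derivation.smul_apply] at h2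
      rw [sub_eq_iff_eq_add] at h2
      rw [h2, smul_add, neg_smul, smul_neg]
      ring
    · rw [if_neg (by omega)]
      rw [if_neg h, Derivation.coe_zero, Pi.zero_apply, sub_eq_zero] at h2
      rw [h2, sub_zero]

/-- the set of indices of the quadratic part -/
noncomputable def Ix (n : ℤ) : Finset ℤ := Finset.Ioo (min 0 n) (max 0 n)

/-- the Virasoro generators -/
noncomputable def Lop (b μ : ℂ) (n : ℤ) : OpR :=
  (Dn n).toLinearMap + (1 / 2 : ℂ) • (∑ k ∈ Ix n, am μ k ∘ₗ am μ (n - k))
    + (if n = 0 then (1 / 2 * μ ^ 2 - b * μ) • LinearMap.id else (μ - b * (n + 1)) • am μ n)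

theorem Lop_apply (b μ : ℂ) (n : ℤ) (p : FR) : Lop b μ n p
    = Dn n p + (1 / 2 : ℂ) • (∑ k ∈ Ix n, am μ k (am μ (n - k) p))
    + (if n = 0 then (1 / 2 * μ ^ 2 - b * μ) • p else (μ - b * (n + 1)) • am μ n p) := by
  unfold Lop
  rw [LinearMap.add_apply, LinearMap.add_apply, LinearMap.smul_apply, LinearMap.sum_apply]
  congr 1
  split_ifs <;> rfl

theorem quad_am (μ : ℂ) (n j k : ℤ) (p : FR) :
    am μ k (am μ (n - k) (am μ j p)) = am μ j (am μ k (am μ (n - k) p))
      + ((if k = -j then (k : ℂ) • am μ (n - k) p else 0)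
      + (if k = n + j then ((n - k : ℤ) : ℂ) • am μ k p else 0)) := by
  rw [heis μ (n - k) j, map_add, heis μ k j, map_smul, add_assoc]
  congr 2
  · by_cases h : k + j = 0
    · rw [if_pos h, if_pos (by omega)]
    · rw [if_neg h, if_neg (by omega), zero_smul]
  · by_cases h : n - k + j = 0
    · rw [if_pos h, if_pos (by omega)]
    · rw [if_neg h, if_neg (by omega), zero_smul]

theorem mem_Ix (n j : ℤ) : -j ∈ Ix n ↔ (j < 0 ∧ 0 < n + j) ∨ (0 < j ∧ n + j < 0) := by
  unfold Ix
  rw [Finset.mem_Ioo]
  omega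

theorem mem_Ix' (n j : ℤ) : n + j ∈ Ix n ↔ (j < 0 ∧ 0 < n + j) ∨ (0 < j ∧ n + j < 0) := by
  unfold Ix
  rw [Finset.mem_Ioo]
  omega

theorem quadsum_am (μ : ℂ) (n j : ℤ) (p : FR) :
    (1 / 2 : ℂ) • (∑ k ∈ Ix n, am μ k (am μ (n - k) (am μ j p)))
      = am μ j ((1 / 2 : ℂ) • (∑ k ∈ Ix n, am μ k (am μ (n - k) p)))
      - (if (j < 0 ∧ 0 < n + j) ∨ (0 < j ∧ n + j < 0) then (j : ℂ) • am μ (n + j) p else 0) := by
  rw [map_smul, map_sum]
  have h1 : ∑ k ∈ Ix n, am μ k (am μ (n - k) (am μ j p))
      = ∑ k ∈ Ix n, am μ j (am μ k (am μ (n - k) p))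
        + ((if -j ∈ Ix n then ((-j : ℤ) : ℂ) • am μ (n - -j) p else 0)
        + (if n + j ∈ Ix n then ((n - (n + j) : ℤ) : ℂ) • am μ (n + j) p else 0)) := by
    rw [Finset.sum_congr rfl fun k _ => quad_am μ n j k p, Finset.sum_add_distrib,
      Finset.sum_add_distrib, Finset.sum_ite_eq', Finset.sum_ite_eq']
  rw [h1]
  simp only [mem_Ix, mem_Ix']
  by_cases h : (j < 0 ∧ 0 < n + j) ∨ (0 < j ∧ n + j < 0)
  · rw [if_pos h, if_pos h, if_pos h]
    have e1 : n - -j = n + j := by ring
    have e2 : n - (n + j) = -j := by ring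
    rw [e1, e2]
    push_cast
    module
  · rw [if_neg h, if_neg h, if_neg h, add_zero, add_zero, sub_zero]

/-- scalar in the commutator -/
noncomputable def sc (b : ℂ) (n j : ℤ) : ℂ := if n + j = 0 then b * n * (n + 1) else 0

/-- commutators of the Virasoro generators with the Heisenberg generators -/
theorem Lop_am (b μ : ℂ) (n j : ℤ) (p : FR) :
    Lop b μ n (am μ j p) = am μ j (Lop b μ n p) - (j : ℂ) • am μ (n + j) p - sc b n j • p := by
  have hlin : (if n = 0 then (1 / 2 * μ ^ 2 - b * μ) • (am μ j p)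
        else (μ - b * (n + 1)) • am μ n (am μ j p))
      = am μ j (if n = 0 then (1 / 2 * μ ^ 2 - b * μ) • p
        else (μ - b * (n + 1)) • am μ n p)
        + (if n + j = 0 then (μ - b * (n + 1)) * n else 0) • p := by
    by_cases hn : n = 0
    · subst hn
      rw [if_pos rfl, if_pos rfl, map_smul]
      push_cast
      simp
    · rw [if_neg hn, if_neg hn, heis, map_smul, smul_add, smul_smul]
      congr 2
      split_ifs <;> simp
  have key0 : n + j = 0 → (μ - b * ((n : ℂ) + 1)) * n = -((j : ℂ) * μ) - b * n * (n + 1) := by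
    intro h
    have e : (j : ℂ) = -(n : ℂ) := by
      have : j = -n := by omega
      rw [this]
      push_cast
      ring
    rw [e]
    ring
  rw [Lop_apply, Lop_apply, Dn_am, quadsum_am, hlin, map_add, map_add]
  unfold sc
  set A := am μ j (Dn n p)
  set B := am μ j ((1 / 2 : ℂ) • ∑ k ∈ Ix n, am μ k (am μ (n - k) p))
  set D := am μ j (if n = 0 then (1 / 2 * μ ^ 2 - b * μ) • p
        else (μ - b * (n + 1)) • am μ n p)
  rcases lt_trichotomy j 0 with hj | hj | hj
  · rcases lt_trichotomy (n + j) 0 with h | h | h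
    · rw [if_pos (Or.inr ⟨hj, h⟩), if_neg (by omega), if_neg (by omega), if_neg (by omega)]
      module
    · rw [if_neg (by omega), if_neg (by omega), if_pos h, if_pos h, h, am_zero, key0 h,
        LinearMap.smul_apply, Module.End.one_apply]
      module
    · rw [if_neg (by omega), if_pos (Or.inl ⟨hj, h⟩), if_neg (by omega), if_neg (by omega)]
      module
  · by_cases hn : n = 0
    · rw [if_neg (by omega), if_neg (by omega), hj, hn]
      simp
    · rw [if_neg (by omega), if_neg (by omega), if_neg (by omega), if_neg (by omega), hj]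
      simp
  · rcases lt_trichotomy (n + j) 0 with h | h | h
    · rw [if_neg (by omega), if_pos (Or.inr ⟨hj, h⟩), if_neg (by omega), if_neg (by omega)]
      module
    · rw [if_neg (by omega), if_neg (by omega), if_pos h, if_pos h, h, am_zero, key0 h,
        LinearMap.smul_apply, Module.End.one_apply]
      module
    · rw [if_pos (Or.inl ⟨hj, h⟩), if_neg (by omega), if_neg (by omega), if_neg (by omega)]
      module

/-- the commutator defect -/
noncomputable def Tm (b μ : ℂ) (m n : ℤ) : OpR :=
  Lop b μ m ∘ₗ Lop b μ n - Lop b μ n ∘ₗ Lop b μ m - ((m : ℂ) - n) • Lop b μ (m + n)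

theorem Tm_apply (b μ : ℂ) (m n : ℤ) (p : FR) : Tm b μ m n p
    = Lop b μ m (Lop b μ n p) - Lop b μ n (Lop b μ m p) - ((m : ℂ) - n) • Lop b μ (m + n) p := rfl

theorem Tm_am (b μ : ℂ) (m n j : ℤ) (p : FR) :
    Tm b μ m n (am μ j p) = am μ j (Tm b μ m n p) := by
  rw [Tm_apply, Tm_apply]
  simp only [Lop_am, map_sub, map_smul]
  have e1 : m + (n + j) = m + n + j := by ring
  have e2 : n + (m + j) = m + n + j := by ring
  rw [e1, e2]
  unfold sc
  rw [e1, e2]
  by_cases h : m + n + j = 0
  · rw [if_pos h, if_pos h, if_pos h]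
    have hj : (j : ℂ) = -((m : ℂ) + n) := by
      have : j = -(m + n) := by omega
      rw [this]
      push_cast
      ring
    rw [hj]
    push_cast
    rw [hj]
    module
  · rw [if_neg h, if_neg h, if_neg h]
    push_cast
    module

theorem eq_C_of_pderiv {p : FR} (h : ∀ i, pderiv i p = 0) : p = C (constantCoeff p) := by
  ext s
  rw [coeff_C]
  by_cases hs : 0 = s
  · rw [if_pos hs, ← hs, constantCoeff_eq]
  · rw [if_neg hs]
    have hs' : s ≠ 0 := fun h => hs h.symm
    obtain ⟨i, hi⟩ : ∃ i, s i ≠ 0 := by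
      by_contra hcon
      push Not at hcon
      exact hs' (Finsupp.ext hcon)
    have h1 := congrArg (coeff (s - Finsupp.single i 1)) (h i)
    rw [coeff_pderiv, coeff_zero] at h1
    have h2 : s - Finsupp.single i 1 + Finsupp.single i 1 = s := by
      ext l
      simp only [Finsupp.add_apply, Finsupp.tsub_apply]
      by_cases hl : i = l
      · subst hl
        rw [Finsupp.single_eq_same]
        omega
      · rw [Finsupp.single_eq_of_ne (fun h => hl h.symm)]
        omega
    rw [h2] at h1
    rcases mul_eq_zero.1 h1 with h3 | h3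
    · exact h3
    · exfalso
      exact Nat.cast_add_one_ne_zero _ h3

theorem commutant (μ : ℂ) {T : OpR} (hT : ∀ j p, T (am μ j p) = am μ j (T p)) (p : FR) :
    T p = constantCoeff (T 1) • p := by
  have hX : ∀ i (p : FR), T (X i * p) = X i * T p := by
    intro i p
    have h := hT (-((i : ℤ) + 1)) p
    rw [am_neg μ (by omega), am_neg μ (by omega)] at h
    have e : (- -((i : ℤ) + 1)).toNat - 1 = i := by omega
    rw [e] at h
    exact h
  have hmul : ∀ p : FR, T p = T 1 * p := by
    intro p
    induction p using MvPolynomial.induction_on with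
    | C a =>
      have : (C a : FR) = a • 1 := by rw [smul_eq_C_mul, mul_one]
      rw [this, map_smul, mul_smul_comm, mul_one]
    | add p q hp hq => rw [map_add, hp, hq, mul_add]
    | mul_X p i hp => rw [mul_comm p, hX, hp]; ring
  have hd : ∀ i, pderiv i (T 1) = 0 := by
    intro i
    have h := hT ((i : ℤ) + 1) 1
    rw [am_pos μ (by omega), am_pos μ (by omega)] at h
    have e : ((i : ℤ) + 1).toNat - 1 = i := by omega
    rw [e, pderiv_one, smul_zero, map_zero] at h
    have h2 : (((i : ℤ) + 1 : ℤ) : ℂ) ≠ 0 := by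
      push_cast
      exact Nat.cast_add_one_ne_zero i
    exact (smul_eq_zero.1 h.symm).resolve_left h2
  rw [hmul p, eq_C_of_pderiv hd, constantCoeff_C, smul_eq_C_mul]

/-! ### The central charge -/

theorem eps_Dn (n : ℤ) (p : FR) : constantCoeff (Dn n p) = 0 := by
  induction p using MvPolynomial.induction_on with
  | C a => rw [derivation_C, map_zero]
  | add p q hp hq => rw [map_add, map_add, hp, hq, add_zero]
  | mul_X p i hp =>
    rw [Derivation.leibniz, smul_eq_mul, smul_eq_mul, map_add, map_mul, map_mul, hp, Dn_X]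
    unfold xk
    split_ifs <;> simp

theorem eps_am_neg (μ : ℂ) {j : ℤ} (h : j < 0) (p : FR) : constantCoeff (am μ j p) = 0 := by
  rw [am_neg μ h, map_mul, constantCoeff_X, zero_mul]

theorem am_pos_one (μ : ℂ) {j : ℤ} (h : 0 < j) : am μ j 1 = 0 := by
  rw [am_pos μ h, pderiv_one, smul_zero]

theorem eps_am_one (μ : ℂ) (j : ℤ) : constantCoeff (am μ j 1) = if j = 0 then μ else 0 := by
  rcases lt_trichotomy j 0 with h | h | h
  · rw [eps_am_neg μ h, if_neg (by omega)]
  · rw [h, am_zero, if_pos rfl]
    simp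
  · rw [am_pos_one μ h, if_neg (by omega), map_zero]

theorem Dn_one (n : ℤ) : Dn n 1 = 0 := Derivation.map_one_eq_zero _

theorem Ix_zero : Ix 0 = ∅ := by
  unfold Ix
  simp

theorem mem_Ix_pos {n k : ℤ} (hn : 0 < n) (h : k ∈ Ix n) : 0 < k ∧ k < n := by
  unfold Ix at h
  rw [Finset.mem_Ioo] at h
  omega

theorem mem_Ix_neg {n k : ℤ} (hn : n < 0) (h : k ∈ Ix n) : n < k ∧ k < 0 := by
  unfold Ix at h
  rw [Finset.mem_Ioo] at h
  omega

theorem Lop_pos_one (b μ : ℂ) {n : ℤ} (hn : 0 < n) : Lop b μ n 1 = 0 := by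
  rw [Lop_apply, Dn_one, if_neg (by omega), am_pos_one μ hn, Finset.sum_eq_zero]
  · simp
  · intro k hk
    have := mem_Ix_pos hn hk
    rw [am_pos_one μ (by omega), map_zero]

theorem Lop_zero_one (b μ : ℂ) : Lop b μ 0 1 = (1 / 2 * μ ^ 2 - b * μ) • 1 := by
  rw [Lop_apply, Dn_one, if_pos rfl, Ix_zero]
  simp

theorem eps_Lop_neg (b μ : ℂ) {n : ℤ} (hn : n < 0) (p : FR) :
    constantCoeff (Lop b μ n p) = 0 := by
  rw [Lop_apply, if_neg (by omega), map_add, map_add, eps_Dn, constantCoeff_smul,
    constantCoeff_smul, eps_am_neg μ hn, map_sum, Finset.sum_eq_zero]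
  · simp
  · intro k hk
    exact eps_am_neg μ (mem_Ix_neg hn hk).2 _

theorem eps_Lop_zero (b μ : ℂ) (p : FR) :
    constantCoeff (Lop b μ 0 p) = (1 / 2 * μ ^ 2 - b * μ) * constantCoeff p := by
  rw [Lop_apply, if_pos rfl, Ix_zero, map_add, map_add, eps_Dn, constantCoeff_smul,
    constantCoeff_smul]
  simp

theorem eps_Lop_am_am (b μ : ℂ) {m n k : ℤ} (hk : n < k ∧ k < 0) :
    constantCoeff (Lop b μ m (am μ k (am μ (n - k) 1)))
      = -(k : ℂ) * (if m + n = 0 then ((m : ℂ) + k) else 0) := by
  rw [Lop_am, map_sub, map_sub, constantCoeff_smul, constantCoeff_smul, eps_am_neg μ hk.2,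
    eps_am_neg μ (j := n - k) (by omega), heis, map_add, eps_am_neg μ (j := n - k) (by omega),
    constantCoeff_smul]
  have e : m + k + (n - k) = m + n := by ring
  rw [e]
  split_ifs <;> simp

theorem eps_Lop_am (b μ : ℂ) {m n : ℤ} (hn : n < 0) :
    constantCoeff (Lop b μ m (am μ n 1))
      = if m + n = 0 then (m : ℂ) * μ - b * m * (m + 1) else 0 := by
  rw [Lop_am, map_sub, map_sub, constantCoeff_smul, constantCoeff_smul, eps_am_neg μ hn,
    eps_am_one]
  unfold sc
  by_cases h : m + n = 0
  · rw [if_pos h, if_pos h, if_pos h]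
    have e : (n : ℂ) = -(m : ℂ) := by
      have : n = -m := by omega
      rw [this]
      push_cast
      ring
    rw [e]
    simp
  · rw [if_neg h, if_neg h, if_neg h]
    simp

theorem sum_sq (N : ℂ) (M : ℕ) : ∑ i ∈ Finset.range M, (i : ℂ) * (N - i)
    = N * (M * (M - 1)) / 2 - (M - 1) * M * (2 * M - 1) / 6 := by
  induction M with
  | zero => simp
  | succ M ih =>
    rw [Finset.sum_range_succ, ih]
    push_cast
    ring

theorem sum_Ix {m : ℤ} (hm : 0 < m) : ∑ k ∈ Ix (-m), -(k : ℂ) * ((m : ℂ) + k)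
    = ((m : ℂ) ^ 3 - m) / 6 := by
  obtain ⟨N, rfl⟩ : ∃ N : ℕ, m = N := ⟨m.toNat, by omega⟩
  have h1 : ∑ k ∈ Ix (-(N : ℤ)), -(k : ℂ) * (((N : ℤ) : ℂ) + k)
      = ∑ i ∈ (Finset.range N).erase 0, (i : ℂ) * ((N : ℂ) - i) := by
    refine Finset.sum_bij' (fun k _ => (-k).toNat) (fun i _ => -(i : ℤ)) ?_ ?_ ?_ ?_ ?_
    · intro k hk
      have := mem_Ix_neg (by omega) hk
      rw [Finset.mem_erase, Finset.mem_range]
      omega
    · intro i hi
      rw [Finset.mem_erase, Finset.mem_range] at hi
      unfold Ix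
      rw [Finset.mem_Ioo]
      omega
    · intro k hk
      have := mem_Ix_neg (by omega) hk
      omega
    · intro i hi
      omega
    · intro k hk
      have h2 := mem_Ix_neg (by omega) hk
      have h3 : (((-k).toNat : ℕ) : ℂ) = -(k : ℂ) := by
        have : (((-k).toNat : ℕ) : ℤ) = -k := by omega
        have := congrArg (fun z : ℤ => (z : ℂ)) this
        push_cast at this
        exact_mod_cast this
      rw [h3]
      push_cast
      ring
  rw [h1]
  have h2 : ∑ i ∈ (Finset.range N).erase 0, (i : ℂ) * ((N : ℂ) - i)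
      = ∑ i ∈ Finset.range N, (i : ℂ) * ((N : ℂ) - i) := by
    apply Finset.sum_erase
    simp
  rw [h2, sum_sq]
  push_cast
  ring

theorem eps_T_pos (b μ : ℂ) {m n : ℤ} (hm : 0 < m) :
    constantCoeff (Tm b μ m n 1)
      = if m + n = 0 then (1 - 12 * b ^ 2) * ((m : ℂ) ^ 3 - m) / 12 else 0 := by
  rw [Tm_apply, Lop_pos_one b μ hm, map_zero, sub_zero, map_sub, constantCoeff_smul]
  rcases lt_trichotomy n 0 with hn | hn | hn
  · have h1 : Lop b μ n 1 = (1 / 2 : ℂ) • (∑ k ∈ Ix n, am μ k (am μ (n - k) 1))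
        + (μ - b * (n + 1)) • am μ n 1 := by
      rw [Lop_apply, Dn_one, if_neg (by omega), zero_add]
    rw [h1, map_add, map_smul, map_smul, map_sum, map_add, constantCoeff_smul,
      constantCoeff_smul, map_sum, eps_Lop_am b μ hn,
      Finset.sum_congr rfl fun k hk => eps_Lop_am_am b μ (mem_Ix_neg hn hk)]
    by_cases h : m + n = 0
    · simp only [if_pos h]
      have hn' : n = -m := by omega
      rw [hn', sum_Ix hm]
      have : m + -m = 0 := by ring
      rw [this, Lop_zero_one, constantCoeff_smul, map_one]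
      push_cast
      simp only [smul_eq_mul, mul_one]
      ring
    · simp only [if_neg h]
      rcases lt_or_gt_of_ne h with h2 | h2
      · rw [eps_Lop_neg b μ h2]
        simp
      · rw [Lop_pos_one b μ h2]
        simp
  · subst hn
    rw [Lop_zero_one, map_smul, add_zero, Lop_pos_one b μ hm, if_neg (by omega)]
    simp
  · rw [Lop_pos_one b μ hn, Lop_pos_one b μ (by omega : 0 < m + n), if_neg (by omega)]
    simp

theorem eps_T (b μ : ℂ) (m n : ℤ) :
    constantCoeff (Tm b μ m n 1)
      = if m + n = 0 then (1 - 12 * b ^ 2) * ((m : ℂ) ^ 3 - m) / 12 else 0 := by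
  have anti : Tm b μ m n 1 = -Tm b μ n m 1 := by
    rw [Tm_apply, Tm_apply, add_comm n m]
    module
  rcases lt_trichotomy m 0 with hm | hm | hm
  · rcases lt_trichotomy n 0 with hn | hn | hn
    · rw [Tm_apply, map_sub, map_sub, constantCoeff_smul, eps_Lop_neg b μ hm,
        eps_Lop_neg b μ hn, eps_Lop_neg b μ (by omega : m + n < 0), if_neg (by omega)]
      simp
    · subst hn
      rw [Tm_apply, map_sub, map_sub, constantCoeff_smul, eps_Lop_neg b μ hm,
        eps_Lop_zero, add_zero, eps_Lop_neg b μ hm, if_neg (by omega)]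
      simp
    · rw [anti, map_neg, eps_T_pos b μ hn, add_comm n m]
      by_cases h : m + n = 0
      · rw [if_pos h, if_pos h]
        have e : (n : ℂ) = -(m : ℂ) := by
          have : n = -m := by omega
          rw [this]
          push_cast
          ring
        rw [e]
        ring
      · rw [if_neg h, if_neg h, neg_zero]
  · subst hm
    rcases lt_trichotomy n 0 with hn | hn | hn
    · rw [Tm_apply, map_sub, map_sub, constantCoeff_smul, eps_Lop_zero,
        eps_Lop_neg b μ hn, eps_Lop_neg b μ hn, zero_add, eps_Lop_neg b μ hn, if_neg (by omega)]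
      simp
    · subst hn
      rw [Tm_apply]
      simp
    · rw [anti, map_neg, eps_T_pos b μ hn, if_neg (by omega), if_neg (by omega), neg_zero]
  · exact eps_T_pos b μ hm

/-- The Virasoro relations on the Fock space, with central charge `1 - 12 b²`. -/
theorem virasoro (b μ : ℂ) (m n : ℤ) (p : FR) :
    Lop b μ m (Lop b μ n p) = Lop b μ n (Lop b μ m p) + ((m : ℂ) - n) • Lop b μ (m + n) p
      + (if m + n = 0 then (1 - 12 * b ^ 2) * ((m : ℂ) ^ 3 - m) / 12 else 0) • p := by
  have h := commutant μ (T := Tm b μ m n) (Tm_am b μ m n) p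
  rw [eps_T, Tm_apply] at h
  rw [← h]
  module

end Pool.Agent.Monster
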