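import Pool.Agent.Monster.Defs

/-! Single valued solutions near a regular singular point are meromorphic. -/

open Filter Topology Metric

namespace Pool.Agent.Monster

/-- the punctured disc -/
def PD (a : ℂ) (r : ℝ) : Set ℂ := ball a r \ {a}

theorem isOpen_PD (a : ℂ) (r : ℝ) : IsOpen (PD a r) := isOpen_ball.sdiff isClosed_singleton

theorem mem_PD {a : ℂ} {r : ℝ} {x : ℂ} : x ∈ PD a r ↔ ‖x - a‖ < r ∧ x ≠ a := by
  unfold PD
  rw [Set.mem_sdiff, mem_ball_iff_norm, Set.mem_singleton_iff]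

theorem preconnected_PD (a : ℂ) (r : ℝ) : IsPreconnected (PD a r) := by
  have h1 : PD a r = (fun p : ℝ × ℝ => a + (p.1 : ℂ) * Complex.exp (p.2 * Complex.I)) ''
      (Set.Ioo 0 r ×ˢ Set.univ) := by
    ext x
    constructor
    · intro hx
      rw [mem_PD] at hx
      refine ⟨(‖x - a‖, Complex.arg (x - a)), ⟨⟨norm_pos_iff.2 (sub_ne_zero.2 hx.2), hx.1⟩,
        Set.mem_univ _⟩, ?_⟩
      simp only
      rw [Complex.norm_mul_exp_arg_mul_I]
      ring
    · rintro ⟨⟨t, θ⟩, ⟨⟨ht0, ht1⟩, -⟩, rfl⟩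
      rw [mem_PD]
      simp only
      have h2 : a + (t : ℂ) * Complex.exp (θ * Complex.I) - a
          = (t : ℂ) * Complex.exp (θ * Complex.I) := by ring
      have h3 : ‖a + (t : ℂ) * Complex.exp (θ * Complex.I) - a‖ = t := by
        rw [h2, norm_mul, Complex.norm_exp_ofReal_mul_I, mul_one, Complex.norm_real,
          Real.norm_eq_abs, abs_of_pos ht0]
      refine ⟨by rw [h3]; exact ht1, fun h4 => ?_⟩
      rw [h4, sub_self, norm_zero] at h3
      exact ht0.ne h3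
  rw [h1]
  apply IsPreconnected.image
  · exact isPreconnected_Ioo.prod isPreconnected_univ
  · apply Continuous.continuousOn
    fun_prop

/-- one direction of growth: monotonicity of `t^K (|g|² + t² |k|²)` -/
theorem ray_mono {r M : ℝ} {w : ℂ} (hw : ‖w‖ = 1) {g k l : ℝ → ℂ} (hM : 0 ≤ M)
    (hg : ∀ t ∈ Set.Ioo 0 r, HasDerivAt g (w * k t) t)
    (hk : ∀ t ∈ Set.Ioo 0 r, HasDerivAt k (w * l t) t)
    (hl : ∀ t ∈ Set.Ioo 0 r, t ^ 2 * ‖l t‖ ≤ M * ‖g t‖) {K : ℕ} (hK : 1 + M ≤ K) :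
    MonotoneOn (fun t => t ^ K * (‖g t‖ ^ 2 + t ^ 2 * ‖k t‖ ^ 2)) (Set.Ioo 0 r) := by
  have hder : ∀ t ∈ Set.Ioo 0 r, HasDerivAt (fun t => t ^ K * (‖g t‖ ^ 2 + t ^ 2 * ‖k t‖ ^ 2))
      ((K : ℝ) * t ^ (K - 1) * (‖g t‖ ^ 2 + t ^ 2 * ‖k t‖ ^ 2)
        + t ^ K * (2 * inner ℝ (g t) (w * k t) + (2 * t * ‖k t‖ ^ 2
          + t ^ 2 * (2 * inner ℝ (k t) (w * l t))))) t := by
    intro t ht
    have h1 := (hg t ht).norm_sq
    have h2 := (hk t ht).norm_sq
    have h3 : HasDerivAt (fun t : ℝ => t ^ 2) (2 * t) t := by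
      simpa using hasDerivAt_pow 2 t
    have h4 := hasDerivAt_pow K t
    exact h4.mul (h1.add (h3.mul h2))
  refine monotoneOn_of_deriv_nonneg (convex_Ioo 0 r) ?_ ?_ ?_
  · intro t ht
    exact (hder t ht).continuousAt.continuousWithinAt
  · rw [interior_Ioo]
    intro t ht
    exact (hder t ht).differentiableAt.differentiableWithinAt
  · rw [interior_Ioo]
    intro t ht
    rw [(hder t ht).deriv]
    have ht0 : 0 < t := ht.1
    set G := ‖g t‖ with hG
    set H := ‖k t‖ with hH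
    have hG0 : 0 ≤ G := norm_nonneg _
    have hH0 : 0 ≤ H := norm_nonneg _
    have i1 : -(G * H) ≤ inner ℝ (g t) (w * k t) := by
      have h1 := (abs_le.1 (abs_real_inner_le_norm (g t) (w * k t))).1
      rw [norm_mul, hw, one_mul] at h1
      exact h1
    have i2 : -(H * ‖l t‖) ≤ inner ℝ (k t) (w * l t) := by
      have h1 := (abs_le.1 (abs_real_inner_le_norm (k t) (w * l t))).1
      rw [norm_mul, hw, one_mul] at h1
      exact h1
    have hKpos : 0 < K := by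
      have : (0 : ℝ) < K := by linarith
      exact_mod_cast this
    have hpow : t ^ K = t * t ^ (K - 1) := by
      rw [← pow_succ']
      congr 1
      omega
    have hl' := hl t ht
    rw [hpow]
    have key : 0 ≤ (K : ℝ) * (G ^ 2 + t ^ 2 * H ^ 2) + t * (2 * inner ℝ (g t) (w * k t)
        + (2 * t * H ^ 2 + t ^ 2 * (2 * inner ℝ (k t) (w * l t)))) := by
      have j1 : t * (2 * inner ℝ (g t) (w * k t)) ≥ -(2 * (G * (t * H))) := by nlinarith
      have j2 : t * (t ^ 2 * (2 * inner ℝ (k t) (w * l t))) ≥ -(2 * M * (G * (t * H))) := by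
        have j3 : t * (t ^ 2 * (2 * inner ℝ (k t) (w * l t))) ≥ -(2 * t * H * (t ^ 2 * ‖l t‖)) := by
          have : 0 < t ^ 3 := by positivity
          nlinarith
        have j4 : 2 * t * H * (t ^ 2 * ‖l t‖) ≤ 2 * t * H * (M * G) :=
          mul_le_mul_of_nonneg_left hl' (by positivity)
        nlinarith
      have j5 : 2 * (G * (t * H)) ≤ G ^ 2 + t ^ 2 * H ^ 2 := by nlinarith [sq_nonneg (G - t * H)]
      have j6 : 0 ≤ t * (2 * t * H ^ 2) := by positivity
      have j7 : (1 + M) * (G ^ 2 + t ^ 2 * H ^ 2) ≤ K * (G ^ 2 + t ^ 2 * H ^ 2) :=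
        mul_le_mul_of_nonneg_right hK (by positivity)
      have j8 : (1 + M) * (2 * (G * (t * H))) ≤ (1 + M) * (G ^ 2 + t ^ 2 * H ^ 2) :=
        mul_le_mul_of_nonneg_left j5 (by linarith)
      nlinarith
    have hfac : (K : ℝ) * t ^ (K - 1) * (G ^ 2 + t ^ 2 * H ^ 2)
        + t * t ^ (K - 1) * (2 * inner ℝ (g t) (w * k t) + (2 * t * H ^ 2
          + t ^ 2 * (2 * inner ℝ (k t) (w * l t))))
        = t ^ (K - 1) * ((K : ℝ) * (G ^ 2 + t ^ 2 * H ^ 2)
          + t * (2 * inner ℝ (g t) (w * k t)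
        + (2 * t * H ^ 2 + t ^ 2 * (2 * inner ℝ (k t) (w * l t))))) := by ring
    rw [hfac]
    exact mul_nonneg (by positivity) key

/-- Moderate growth of single valued solutions. -/
theorem growth {U : ℂ → ℂ} {E a : ℂ} {r M : ℝ} (hr : 0 < r) (hM : 0 ≤ M)
    (hU : ∀ x ∈ PD a r, ‖x - a‖ ^ 2 * ‖U x - E‖ ≤ M) {ψ : ℂ → ℂ} (hψ : IsSol U E (PD a r) ψ) :
    ∃ (K : ℕ) (C : ℝ), ∀ x ∈ PD a (r / 2), ‖x - a‖ ^ K * ‖ψ x‖ ^ 2 ≤ C := by
  obtain ⟨K, hK⟩ := exists_nat_ge (1 + M)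
  have hopen := isOpen_PD a r
  have hd1 : ∀ x ∈ PD a r, HasDerivAt ψ (deriv ψ x) x := fun x hx =>
    (hψ.1.differentiableAt (hopen.mem_nhds hx)).hasDerivAt
  have hd2' : DifferentiableOn ℂ (deriv ψ) (PD a r) := hψ.1.deriv hopen
  have hd2 : ∀ x ∈ PD a r, HasDerivAt (deriv ψ) (deriv (deriv ψ) x) x := fun x hx =>
    (hd2'.differentiableAt (hopen.mem_nhds hx)).hasDerivAt
  -- bound on the circle
  have hr2 : 0 < r / 2 := by linarith
  have hsub : sphere a (r / 2) ⊆ PD a r := by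
    intro x hx
    rw [mem_PD]
    rw [mem_sphere_iff_norm] at hx
    refine ⟨by rw [hx]; linarith, fun h => ?_⟩
    rw [h, sub_self, norm_zero] at hx
    linarith
  have hcont : ContinuousOn (fun x => ‖ψ x‖ ^ 2 + (r / 2) ^ 2 * ‖deriv ψ x‖ ^ 2)
      (sphere a (r / 2)) := by
    have h1 : ContinuousOn ψ (sphere a (r / 2)) := hψ.1.continuousOn.mono hsub
    have h2 : ContinuousOn (deriv ψ) (sphere a (r / 2)) := hd2'.continuousOn.mono hsub
    exact (h1.norm.pow 2).add (continuousOn_const.mul (h2.norm.pow 2))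
  obtain ⟨B, hB⟩ := (isCompact_sphere a (r / 2)).exists_bound_of_continuousOn hcont
  refine ⟨K, (r / 2) ^ K * B, fun x hx => ?_⟩
  rw [mem_PD] at hx
  obtain ⟨hx1, hx2⟩ := hx
  set t : ℝ := ‖x - a‖ with ht
  have ht0 : 0 < t := norm_pos_iff.2 (sub_ne_zero.2 hx2)
  set w : ℂ := (x - a) / t with hw
  have ht0' : (t : ℂ) ≠ 0 := by exact_mod_cast ht0.ne'
  have hw1 : ‖w‖ = 1 := by
    rw [hw, norm_div, Complex.norm_real, Real.norm_eq_abs, abs_of_pos ht0, ← ht, div_self ht0.ne']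
  have hxw : a + (t : ℂ) * w = x := by
    rw [hw]
    field_simp
    ring
  have hray : ∀ s ∈ Set.Ioo 0 r, a + (s : ℂ) * w ∈ PD a r := by
    intro s hs
    rw [mem_PD]
    have h3 : ‖a + (s : ℂ) * w - a‖ = s := by
      rw [add_sub_cancel_left, norm_mul, hw1, mul_one, Complex.norm_real, Real.norm_eq_abs,
        abs_of_pos hs.1]
    refine ⟨by rw [h3]; exact hs.2, fun h4 => ?_⟩
    rw [h4, sub_self, norm_zero] at h3
    exact hs.1.ne h3
  have hline : ∀ s : ℝ, HasDerivAt (fun s : ℝ => a + (s : ℂ) * w) w s := by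
    intro s
    have h1 : HasDerivAt (fun s : ℝ => (s : ℂ)) 1 s := Complex.ofRealCLM.hasDerivAt
    have h2 := (h1.mul_const w).const_add a
    rw [one_mul] at h2
    exact h2
  have hmono := ray_mono (r := r) (M := M) hw1 (g := fun s => ψ (a + (s : ℂ) * w))
    (k := fun s => deriv ψ (a + (s : ℂ) * w)) (l := fun s => deriv (deriv ψ) (a + (s : ℂ) * w)) hM
    (fun s hs => by
      have h := (hd1 _ (hray s hs)).comp s (hline s)
      rw [mul_comm] at h
      exact h)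
    (fun s hs => by
      have h := (hd2 _ (hray s hs)).comp s (hline s)
      rw [mul_comm] at h
      exact h)
    (fun s hs => by
      have h1 := hψ.2 _ (hray s hs)
      have h2 : deriv (deriv ψ) (a + (s : ℂ) * w)
          = (U (a + (s : ℂ) * w) - E) * ψ (a + (s : ℂ) * w) := by
        linear_combination -h1
      have h3 := hU _ (hray s hs)
      have h4 : ‖a + (s : ℂ) * w - a‖ = s := by
        rw [add_sub_cancel_left, norm_mul, hw1, mul_one, Complex.norm_real, Real.norm_eq_abs,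
          abs_of_pos hs.1]
      rw [h4] at h3
      rw [h2, norm_mul, ← mul_assoc]
      exact mul_le_mul_of_nonneg_right h3 (norm_nonneg _)) hK
  have h5 := hmono (a := t) ⟨ht0, by linarith⟩ (b := r / 2) ⟨hr2, by linarith⟩ hx1.le
  simp only at h5
  rw [hxw] at h5
  have h6 : ‖ψ (a + ((r / 2 : ℝ) : ℂ) * w)‖ ^ 2
      + (r / 2) ^ 2 * ‖deriv ψ (a + ((r / 2 : ℝ) : ℂ) * w)‖ ^ 2 ≤ B := by
    have h7 : a + ((r / 2 : ℝ) : ℂ) * w ∈ sphere a (r / 2) := by
      rw [mem_sphere_iff_norm, add_sub_cancel_left, norm_mul, hw1, mul_one, Complex.norm_real,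
        Real.norm_eq_abs, abs_of_pos hr2]
    exact (le_abs_self _).trans (hB _ h7)
  calc t ^ K * ‖ψ x‖ ^ 2 ≤ t ^ K * (‖ψ x‖ ^ 2 + t ^ 2 * ‖deriv ψ x‖ ^ 2) := by
        apply mul_le_mul_of_nonneg_left _ (by positivity)
        have : 0 ≤ t ^ 2 * ‖deriv ψ x‖ ^ 2 := by positivity
        linarith
    _ ≤ _ := h5
    _ ≤ (r / 2) ^ K * B := mul_le_mul_of_nonneg_left h6 (by positivity)

/-- Single valued solutions are meromorphic. -/
theorem sol_meromorphic {U : ℂ → ℂ} {E a : ℂ} {r M : ℝ} (hr : 0 < r) (hM : 0 ≤ M)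
    (hU : ∀ x ∈ PD a r, ‖x - a‖ ^ 2 * ‖U x - E‖ ≤ M) {ψ : ℂ → ℂ} (hψ : IsSol U E (PD a r) ψ) :
    MeromorphicAt ψ a := by
  obtain ⟨K, C, hC⟩ := growth hr hM hU hψ
  set G : ℂ → ℂ := fun x => (x - a) ^ K * ψ x with hG
  have hs : ball a (r / 2) ∈ 𝓝 a := ball_mem_nhds a (by linarith)
  have hsub : ball a (r / 2) \ {a} ⊆ PD a r := by
    intro x hx
    exact ⟨ball_subset_ball (by linarith) hx.1, hx.2⟩
  have hd : DifferentiableOn ℂ G (ball a (r / 2) \ {a}) := by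
    refine DifferentiableOn.mul ?_ (hψ.1.mono hsub)
    fun_prop
  have hb : BddAbove (norm ∘ G '' (ball a (r / 2) \ {a})) := by
    refine ⟨(r / 2) ^ K * C + 1, ?_⟩
    rintro _ ⟨x, hx, rfl⟩
    have h1 := hC x hx
    have h2 := (mem_PD.1 hx).1
    set t := ‖x - a‖ with ht
    have ht0 : 0 ≤ t := norm_nonneg _
    have h3 : (‖G x‖) ^ 2 ≤ (r / 2) ^ K * C := by
      rw [hG]
      simp only
      rw [norm_mul, norm_pow, ← ht, mul_pow]
      calc (t ^ K) ^ 2 * ‖ψ x‖ ^ 2 = t ^ K * (t ^ K * ‖ψ x‖ ^ 2) := by ring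
        _ ≤ t ^ K * C := mul_le_mul_of_nonneg_left h1 (by positivity)
        _ ≤ (r / 2) ^ K * C := by
            have hC0 : 0 ≤ C := le_trans (by positivity) h1
            exact mul_le_mul_of_nonneg_right (pow_le_pow_left₀ ht0 h2.le K) hC0
    simp only [Function.comp_apply]
    nlinarith [norm_nonneg (G x), sq_nonneg (‖G x‖ - 1)]
  have hrem := Complex.differentiableOn_update_limUnder_of_bddAbove hs hd hb
  set L := limUnder (𝓝[≠] a) G with hL
  have han : AnalyticAt ℂ (Function.update G a L) a := hrem.analyticAt hs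
  refine ⟨K + 1, ?_⟩
  have h1 : (fun z => (z - a) ^ (K + 1) • ψ z) = fun z => (z - a) * Function.update G a L z := by
    funext z
    by_cases hz : z = a
    · subst hz
      simp
    · rw [Function.update_of_ne hz, hG, smul_eq_mul]
      ring
  rw [h1]
  exact (analyticAt_id.sub analyticAt_const).mul han

/-- A solution which vanishes near `a` has trivial initial data. -/
theorem sol_ne_top {U : ℂ → ℂ} {E a : ℂ} {r : ℝ} (hr : 0 < r) {ψ : ℂ → ℂ}
    (hψ : IsSol U E (PD a r) ψ) {x₀ : ℂ} (hx₀ : x₀ ∈ PD a r) (h0 : ψ x₀ ≠ 0 ∨ deriv ψ x₀ ≠ 0) :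
    meromorphicOrderAt ψ a ≠ ⊤ := by
  intro htop
  rw [meromorphicOrderAt_eq_top_iff] at htop
  have h1 : ∀ᶠ x in 𝓝[≠] a, x ∈ PD a r := by
    rw [eventually_nhdsWithin_iff]
    filter_upwards [ball_mem_nhds a hr] with x hx hne
    exact ⟨hx, hne⟩
  have h2 : ∀ᶠ x in 𝓝[≠] a, ∀ᶠ y in 𝓝 x, ψ y = 0 := by
    have h3 := eventually_eventually_nhdsWithin.2 htop
    filter_upwards [h3, self_mem_nhdsWithin] with x hx hne
    rwa [IsOpen.nhdsWithin_eq isOpen_compl_singleton hne] at hx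
  obtain ⟨z, hz1, hz2⟩ := (h1.and h2).exists
  have han : AnalyticOnNhd ℂ ψ (PD a r) := hψ.1.analyticOnNhd (isOpen_PD a r)
  have h3 := han.eqOn_zero_of_preconnected_of_eventuallyEq_zero (preconnected_PD a r) hz1 hz2
  have h4 : ψ =ᶠ[𝓝 x₀] 0 := by
    filter_upwards [(isOpen_PD a r).mem_nhds hx₀] with y hy
    exact h3 hy
  rcases h0 with h0 | h0
  · exact h0 h4.self_of_nhds
  · apply h0
    rw [h4.deriv_eq]
    simp

end Pool.Agent.Monster
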