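import Pool.Agent.Monster.Growth

/-! Local consequences of trivial monodromy. -/

open Filter Topology Metric

namespace Pool.Agent.Monster

/-- `ψ = (x - a)^m g` near `a`, with `g` analytic and `g a ≠ 0` -/
structure Lead (ψ : ℂ → ℂ) (a : ℂ) (m : ℤ) (g : ℂ → ℂ) : Prop where
  an : AnalyticAt ℂ g a
  ne : g a ≠ 0
  eq : ∀ᶠ x in 𝓝[≠] a, ψ x = (x - a) ^ m * g x

theorem ev_punct {a : ℂ} {p : ℂ → Prop} (h : ∀ᶠ x in 𝓝[≠] a, p x) :
    ∀ᶠ x in 𝓝[≠] a, ∀ᶠ y in 𝓝 x, p y := by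
  have h3 := eventually_eventually_nhdsWithin.2 h
  filter_upwards [h3, self_mem_nhdsWithin] with x hx hne
  rwa [IsOpen.nhdsWithin_eq isOpen_compl_singleton hne] at hx

theorem hasDerivAt_zp {a x : ℂ} (hx : x ≠ a) (m : ℤ) :
    HasDerivAt (fun y => (y - a) ^ m) (m * (x - a) ^ (m - 1)) x := by
  have h1 := hasDerivAt_zpow m (x - a) (Or.inl (sub_ne_zero.2 hx))
  have h2 : HasDerivAt (fun y => y - a) 1 x := (hasDerivAt_id x).sub_const a
  have h3 := h1.comp x h2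
  rw [mul_one] at h3
  exact h3

/-- the equation for the factor `g` -/
theorem lead_ode {U h : ℂ → ℂ} {E a : ℂ} {ψ : ℂ → ℂ} {m : ℤ} {g : ℂ → ℂ} (hl : Lead ψ a m g)
    (hsol : ∀ᶠ x in 𝓝[≠] a, deriv (deriv ψ) x = (U x - E) * ψ x) (hh : AnalyticAt ℂ h a)
    (hU : ∀ᶠ x in 𝓝[≠] a, (x - a) ^ 2 * (U x - E) = h x) :
    ∀ᶠ x in 𝓝 a, (m : ℂ) * (m - 1) * g x + 2 * m * (x - a) * deriv g x
      + (x - a) ^ 2 * deriv (deriv g) x = h x * g x := by
  have hg : ∀ᶠ x in 𝓝 a, AnalyticAt ℂ g x := hl.an.eventually_analyticAt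
  have hg' : ∀ᶠ x in 𝓝[≠] a, AnalyticAt ℂ g x := hg.filter_mono nhdsWithin_le_nhds
  have hne : ∀ᶠ x in 𝓝[≠] a, x ≠ a := self_mem_nhdsWithin
  have q1 : ∀ᶠ x in 𝓝[≠] a, deriv ψ x = m * (x - a) ^ (m - 1) * g x + (x - a) ^ m * deriv g x := by
    filter_upwards [ev_punct hl.eq, hg', hne] with x h1 h2 h3
    have h4 : ψ =ᶠ[𝓝 x] fun y => (y - a) ^ m * g y := h1
    rw [h4.deriv_eq]
    exact ((hasDerivAt_zp h3 m).mul h2.differentiableAt.hasDerivAt).deriv
  have q2 : ∀ᶠ x in 𝓝[≠] a, deriv (deriv ψ) x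
      = m * ((m - 1 : ℤ) * (x - a) ^ (m - 1 - 1)) * g x + m * (x - a) ^ (m - 1) * deriv g x
        + (m * (x - a) ^ (m - 1) * deriv g x + (x - a) ^ m * deriv (deriv g) x) := by
    filter_upwards [ev_punct q1, hg', hne] with x h1 h2 h3
    have h4 : deriv ψ =ᶠ[𝓝 x] fun y => m * (y - a) ^ (m - 1) * g y + (y - a) ^ m * deriv g y := h1
    rw [h4.deriv_eq]
    exact ((((hasDerivAt_zp h3 (m - 1)).const_mul (m : ℂ)).mul
      h2.differentiableAt.hasDerivAt).add ((hasDerivAt_zp h3 m).mul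
      h2.deriv.differentiableAt.hasDerivAt)).deriv
  have q3 : ∀ᶠ x in 𝓝[≠] a, (m : ℂ) * (m - 1) * g x + 2 * m * (x - a) * deriv g x
      + (x - a) ^ 2 * deriv (deriv g) x = h x * g x := by
    filter_upwards [q2, hl.eq, hsol, hU, hne] with x h1 h2 h3 h4 h5
    have hz : x - a ≠ 0 := sub_ne_zero.2 h5
    rw [h1, h2] at h3
    have hZ : (x - a) ^ m ≠ 0 := zpow_ne_zero m hz
    have e1 : (x - a) ^ (m - 1) = (x - a) ^ m / (x - a) := by
      rw [zpow_sub_one₀ hz]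
      rfl
    have e2 : (x - a) ^ (m - 1 - 1) = (x - a) ^ m / (x - a) / (x - a) := by
      rw [zpow_sub_one₀ hz, zpow_sub_one₀ hz]
      rfl
    rw [e1, e2] at h3
    set Z := (x - a) ^ m with hZd
    have h6 : Z * ((m : ℂ) * (m - 1) * g x + 2 * m * (x - a) * deriv g x
      + (x - a) ^ 2 * deriv (deriv g) x) = Z * (h x * g x) := by
      rw [← h4]
      push_cast at h3
      field_simp at h3
      linear_combination Z * h3
    exact mul_left_cancel₀ hZ h6
  have c1 : ContinuousAt (fun x => (m : ℂ) * (m - 1) * g x + 2 * m * (x - a) * deriv g x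
      + (x - a) ^ 2 * deriv (deriv g) x) a := by
    have g0 := hl.an.continuousAt
    have g1 := hl.an.deriv.continuousAt
    have g2 := hl.an.deriv.deriv.continuousAt
    fun_prop
  have c2 : ContinuousAt (fun x => h x * g x) a := hh.continuousAt.mul hl.an.continuousAt
  exact (c1.eventuallyEq_nhds_iff_eventuallyEq_nhdsNE c2).1 q3

theorem IsSol.mono {U : ℂ → ℂ} {E : ℂ} {D D' : Set ℂ} {ψ : ℂ → ℂ} (h : IsSol U E D ψ)
    (hD : D' ⊆ D) : IsSol U E D' ψ := ⟨h.1.mono hD, fun x hx => h.2 x (hD hx)⟩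

theorem IsSol.lin {U : ℂ → ℂ} {E : ℂ} {D : Set ℂ} (hD : IsOpen D) {ψ φ : ℂ → ℂ}
    (h : IsSol U E D ψ) (h' : IsSol U E D φ) (s t : ℂ) :
    IsSol U E D (fun x => s * ψ x + t * φ x) ∧
      ∀ x ∈ D, deriv (fun x => s * ψ x + t * φ x) x = s * deriv ψ x + t * deriv φ x := by
  have d1 : ∀ x ∈ D, deriv (fun x => s * ψ x + t * φ x) x = s * deriv ψ x + t * deriv φ x := by
    intro x hx
    have h1 := (h.1.differentiableAt (hD.mem_nhds hx)).hasDerivAt
    have h2 := (h'.1.differentiableAt (hD.mem_nhds hx)).hasDerivAt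
    exact ((h1.const_mul s).add (h2.const_mul t)).deriv
  refine ⟨⟨(h.1.const_mul s).add (h'.1.const_mul t), fun x hx => ?_⟩, d1⟩
  have d2 : deriv (fun x => s * ψ x + t * φ x) =ᶠ[𝓝 x] fun x => s * deriv ψ x + t * deriv φ x := by
    filter_upwards [hD.mem_nhds hx] with y hy
    exact d1 y hy
  have h1 := ((h.1.deriv hD).differentiableAt (hD.mem_nhds hx)).hasDerivAt
  have h2 := ((h'.1.deriv hD).differentiableAt (hD.mem_nhds hx)).hasDerivAt
  have d3 : deriv (fun x => s * deriv ψ x + t * deriv φ x) x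
      = s * deriv (deriv ψ) x + t * deriv (deriv φ) x :=
    ((h1.const_mul s).add (h2.const_mul t)).deriv
  rw [d2.deriv_eq, d3]
  have e1 := h.2 x hx
  have e2 := h'.2 x hx
  linear_combination s * e1 + t * e2

/-- the factor `g` of a solution with exponent `m` -/
structure Fac (h : ℂ → ℂ) (a : ℂ) (m : ℤ) (g : ℂ → ℂ) : Prop where
  an : AnalyticAt ℂ g a
  ne : g a ≠ 0
  ode : ∀ᶠ x in 𝓝 a, (m : ℂ) * (m - 1) * g x + 2 * m * (x - a) * deriv g x
      + (x - a) ^ 2 * deriv (deriv g) x = h x * g x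

/-- With trivial monodromy there are solutions with two different exponents. -/
theorem two_orders {U h : ℂ → ℂ} {E a : ℂ} (hh : AnalyticAt ℂ h a)
    (hU : ∀ᶠ x in 𝓝[≠] a, (x - a) ^ 2 * (U x - E) = h x) (ht : TrivMono U E a) :
    ∃ (m₁ m₂ : ℤ) (g₁ g₂ : ℂ → ℂ), m₁ ≠ m₂ ∧ Fac h a m₁ g₁ ∧ Fac h a m₂ g₂ := by
  obtain ⟨r, hr, H⟩ := ht
  -- a smaller radius
  have hb : ∀ᶠ x in 𝓝 a, ‖h x‖ < ‖h a‖ + 1 :=
    hh.continuousAt.norm.eventually (gt_mem_nhds (by linarith))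
  have hb2 : ∀ᶠ x in 𝓝 a, x ≠ a → ‖x - a‖ ^ 2 * ‖U x - E‖ ≤ ‖h a‖ + 1 := by
    rw [eventually_nhdsWithin_iff] at hU
    filter_upwards [hU, hb] with x h1 h2 h3
    rw [← norm_pow, ← norm_mul, h1 h3]
    exact h2.le
  obtain ⟨r₀, hr₀, hb3⟩ := Metric.eventually_nhds_iff_ball.1 hb2
  set ρ := min r r₀ with hρ
  have hρ0 : 0 < ρ := lt_min hr hr₀
  have hsub : PD a ρ ⊆ ball a r \ {a} := fun x hx =>
    ⟨ball_subset_ball (min_le_left _ _) hx.1, hx.2⟩
  have hM : ∀ x ∈ PD a ρ, ‖x - a‖ ^ 2 * ‖U x - E‖ ≤ ‖h a‖ + 1 := fun x hx =>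
    hb3 x (ball_subset_ball (min_le_right _ _) hx.1) hx.2
  have hM0 : 0 ≤ ‖h a‖ + 1 := by positivity
  have hopen := isOpen_PD a ρ
  have hev : ∀ᶠ x in 𝓝[≠] a, x ∈ PD a ρ := by
    rw [eventually_nhdsWithin_iff]
    filter_upwards [ball_mem_nhds a hρ0] with x hx hne
    exact ⟨hx, hne⟩
  -- base point
  set x₀ : ℂ := a + ((ρ / 2 : ℝ) : ℂ) with hx₀d
  have hx₀ : x₀ ∈ PD a ρ := by
    rw [mem_PD, hx₀d, add_sub_cancel_left, Complex.norm_real, Real.norm_eq_abs,
      abs_of_pos (by linarith)]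
    refine ⟨by linarith, fun h => ?_⟩
    have h2 : ((ρ / 2 : ℝ) : ℂ) = 0 := by
      have := add_eq_left.1 h
      exact this
    have h3 : ρ / 2 = 0 := by exact_mod_cast h2
    linarith
  have lead : ∀ ψ : ℂ → ℂ, IsSol U E (PD a ρ) ψ → (ψ x₀ ≠ 0 ∨ deriv ψ x₀ ≠ 0) →
      ∃ (m : ℤ) (g : ℂ → ℂ), Lead ψ a m g ∧ Fac h a m g := by
    intro ψ hψ h0
    have hmer := sol_meromorphic hρ0 hM0 hM hψ
    have htop := sol_ne_top hρ0 hψ hx₀ h0
    obtain ⟨g, g1, g2, g3⟩ := (meromorphicOrderAt_ne_top_iff hmer).1 htop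
    have hlead : Lead ψ a _ g := ⟨g1, g2, g3⟩
    have hsol : ∀ᶠ x in 𝓝[≠] a, deriv (deriv ψ) x = (U x - E) * ψ x := by
      filter_upwards [hev] with x hx
      have := hψ.2 x hx
      linear_combination -this
    exact ⟨_, g, hlead, g1, g2, lead_ode hlead hsol hh hU⟩
  obtain ⟨ψ₁, hψ₁, a1, b1⟩ := H x₀ (hsub hx₀) 1 0
  obtain ⟨ψ₂, hψ₂, a2, b2⟩ := H x₀ (hsub hx₀) 0 1
  have s1 := hψ₁.mono hsub
  have s2 := hψ₂.mono hsub
  obtain ⟨m₁, g₁, l1, f1⟩ := lead ψ₁ s1 (Or.inl (by rw [a1]; exact one_ne_zero))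
  obtain ⟨m₂, g₂, l2, f2⟩ := lead ψ₂ s2 (Or.inr (by rw [b2]; exact one_ne_zero))
  by_cases hm : m₁ = m₂
  · subst hm
    obtain ⟨s3, -⟩ := s2.lin hopen s1 (g₁ a) (-(g₂ a))
    obtain ⟨m₃, g₃, l3, f3⟩ := lead _ s3 (Or.inl (by
      rw [a1, a2, mul_zero, zero_add, mul_one]
      exact neg_ne_zero.2 f2.ne))
    refine ⟨m₁, m₃, g₁, g₃, fun h13 => ?_, f1, f3⟩
    subst h13
    have hne : ∀ᶠ x in 𝓝[≠] a, x ≠ a := self_mem_nhdsWithin
    have e1 : g₃ =ᶠ[𝓝[≠] a] fun x => g₁ a * g₂ x + -(g₂ a) * g₁ x := by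
      filter_upwards [l1.eq, l2.eq, l3.eq, hne] with x h1 h2 h3 h4
      rw [h1, h2] at h3
      have hZ : (x - a) ^ m₁ ≠ 0 := zpow_ne_zero _ (sub_ne_zero.2 h4)
      apply mul_left_cancel₀ hZ
      rw [← h3]
      ring
    have c2 : ContinuousAt (fun x => g₁ a * g₂ x + -(g₂ a) * g₁ x) a := by
      have := f1.an.continuousAt
      have := f2.an.continuousAt
      fun_prop
    have e2 := (f3.an.continuousAt.eventuallyEq_nhds_iff_eventuallyEq_nhdsNE c2).1 e1
    have e3 := e2.self_of_nhds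
    apply f3.ne
    rw [e3]
    ring
  · exact ⟨m₁, m₂, g₁, g₂, hm, f1, f2⟩

theorem Fac.exponent {h : ℂ → ℂ} {a : ℂ} {m : ℤ} {g : ℂ → ℂ} (f : Fac h a m g) :
    (m : ℂ) * (m - 1) = h a := by
  have h1 := f.ode.self_of_nhds
  rw [sub_self] at h1
  have h2 : ((m : ℂ) * (m - 1)) * g a = h a * g a := by linear_combination h1
  exact mul_right_cancel₀ f.ne h2

/-- Trivial monodromy forces integral exponents. -/
theorem exists_exponent {U h : ℂ → ℂ} {E a : ℂ} (hh : AnalyticAt ℂ h a)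
    (hU : ∀ᶠ x in 𝓝[≠] a, (x - a) ^ 2 * (U x - E) = h x) (ht : TrivMono U E a) :
    ∃ m : ℤ, (m : ℂ) * (m - 1) = h a := by
  obtain ⟨m₁, m₂, g₁, g₂, hne, f1, f2⟩ := two_orders hh hU ht
  exact ⟨m₁, f1.exponent⟩

/-- At a pole with leading coefficient `2`, trivial monodromy kills the linear coefficient. -/
theorem deriv_zero {U k : ℂ → ℂ} {E a : ℂ} (hk : AnalyticAt ℂ k a)
    (hU : ∀ᶠ x in 𝓝[≠] a, (x - a) ^ 2 * (U x - E) = 2 + (x - a) ^ 2 * k x)
    (ht : TrivMono U E a) : deriv k a = 0 := by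
  have hz : AnalyticAt ℂ (fun x : ℂ => x - a) a := analyticAt_id.sub analyticAt_const
  have hh : AnalyticAt ℂ (fun x => 2 + (x - a) ^ 2 * k x) a :=
    analyticAt_const.add ((hz.pow 2).mul hk)
  obtain ⟨m₁, m₂, g₁, g₂, hne, f1, f2⟩ := two_orders hh hU ht
  -- one of the exponents is `-1`
  have hexp : ∀ m : ℤ, (m : ℂ) * (m - 1) = 2 + (a - a) ^ 2 * k a → m = -1 ∨ m = 2 := by
    intro m hm
    rw [sub_self] at hm
    have h1 : ((m * (m - 1) : ℤ) : ℂ) = ((2 : ℤ) : ℂ) := by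
      push_cast
      rw [hm]
      ring
    have h2 : m * (m - 1) = 2 := by exact_mod_cast h1
    have h3 : (m + 1) * (m - 2) = 0 := by linarith
    rcases mul_eq_zero.1 h3 with h4 | h4
    · left; omega
    · right; omega
  obtain ⟨g, f⟩ : ∃ g, Fac (fun x => 2 + (x - a) ^ 2 * k x) a (-1) g := by
    rcases hexp m₁ f1.exponent with h1 | h1
    · exact ⟨g₁, h1 ▸ f1⟩
    · rcases hexp m₂ f2.exponent with h2 | h2
      · exact ⟨g₂, h2 ▸ f2⟩
      · exact absurd (h1.trans h2.symm) hne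
  have hg := f.an
  have hg1 := hg.deriv
  have hg2 := hg1.deriv
  have hg3 := hg2.deriv
  -- the equation divided by `x - a`
  have F0 : ∀ᶠ x in 𝓝 a, (x - a) * deriv (deriv g) x - 2 * deriv g x - (x - a) * (k x * g x)
      = 0 := by
    have h1 : ∀ᶠ x in 𝓝[≠] a, (x - a) * deriv (deriv g) x - 2 * deriv g x
        - (x - a) * (k x * g x) = 0 := by
      have hne' : ∀ᶠ x in 𝓝[≠] a, x ≠ a := self_mem_nhdsWithin
      filter_upwards [f.ode.filter_mono nhdsWithin_le_nhds, hne'] with x h2 h3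
      apply mul_left_cancel₀ (sub_ne_zero.2 h3)
      push_cast at h2
      linear_combination h2
    have c1 : ContinuousAt (fun x => (x - a) * deriv (deriv g) x - 2 * deriv g x
        - (x - a) * (k x * g x)) a := by
      have := hg.continuousAt
      have := hg1.continuousAt
      have := hg2.continuousAt
      have := hk.continuousAt
      fun_prop
    exact (c1.eventuallyEq_nhds_iff_eventuallyEq_nhdsNE continuousAt_const).1 h1
  have hg'a : deriv g a = 0 := by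
    have h1 := F0.self_of_nhds
    rw [sub_self] at h1
    linear_combination (-1 / 2) * h1
  -- the product `k g`
  set p : ℂ → ℂ := fun x => k x * g x with hp
  have hpa : AnalyticAt ℂ p a := hk.mul hg
  have hsubd : ∀ x : ℂ, HasDerivAt (fun y : ℂ => y - a) 1 x := fun x =>
    (hasDerivAt_id x).sub_const a
  -- first derivative
  have F1 : ∀ᶠ x in 𝓝 a, (x - a) * deriv (deriv (deriv g)) x - deriv (deriv g) x - p x
      - (x - a) * deriv p x = 0 := by
    filter_upwards [F0.eventually_nhds, hg1.eventually_analyticAt, hg2.eventually_analyticAt,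
      hpa.eventually_analyticAt] with x h1 h2 h3 h4
    have e1 : (fun x => (x - a) * deriv (deriv g) x - 2 * deriv g x - (x - a) * p x)
        =ᶠ[𝓝 x] fun _ => 0 := h1
    have e2 := e1.deriv_eq
    have e3 : HasDerivAt (fun x => (x - a) * deriv (deriv g) x - 2 * deriv g x - (x - a) * p x)
        (1 * deriv (deriv g) x + (x - a) * deriv (deriv (deriv g)) x - 2 * deriv (deriv g) x
          - (1 * p x + (x - a) * deriv p x)) x :=
      (((hsubd x).mul h3.differentiableAt.hasDerivAt).sub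
        (h2.differentiableAt.hasDerivAt.const_mul 2)).sub
        ((hsubd x).mul h4.differentiableAt.hasDerivAt)
    rw [e3.deriv, deriv_const] at e2
    linear_combination e2
  -- second derivative at `a`
  have F2 : deriv p a = 0 := by
    have e1 : (fun x => (x - a) * deriv (deriv (deriv g)) x - deriv (deriv g) x - p x
      - (x - a) * deriv p x) =ᶠ[𝓝 a] fun _ => 0 := F1
    have e2 := e1.deriv_eq
    have e3 : HasDerivAt (fun x => (x - a) * deriv (deriv (deriv g)) x - deriv (deriv g) x - p x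
        - (x - a) * deriv p x)
        (1 * deriv (deriv (deriv g)) a + (a - a) * deriv (deriv (deriv (deriv g))) a
          - deriv (deriv (deriv g)) a - deriv p a
          - (1 * deriv p a + (a - a) * deriv (deriv p) a)) a :=
      ((((hsubd a).mul hg3.differentiableAt.hasDerivAt).sub
        hg2.differentiableAt.hasDerivAt).sub hpa.differentiableAt.hasDerivAt).sub
        ((hsubd a).mul hpa.deriv.differentiableAt.hasDerivAt)
    rw [e3.deriv, deriv_const, sub_self] at e2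
    linear_combination (-1 / 2) * e2
  have h5 : deriv p a = deriv k a * g a + k a * deriv g a :=
    (hk.differentiableAt.hasDerivAt.mul hg.differentiableAt.hasDerivAt).deriv
  rw [F2, hg'a, mul_zero, add_zero] at h5
  exact (mul_eq_zero.1 h5.symm).resolve_right f.ne

end Pool.Agent.Monster
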