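import Pool.Agent.Monster.Local

/-! There is no monster potential of momentum `0` and degree `2`. -/

open Filter Topology Polynomial

namespace Pool.Agent.Monster

theorem pole_of {F R : ℂ → ℂ} {a κ : ℂ} (hR : AnalyticAt ℂ R a) (hκ : κ ≠ 0)
    (hF : ∀ᶠ x in 𝓝[≠] a, F x = -κ / (x - a) ^ 2 + R x) : IsPole F a := by
  set G : ℂ → ℂ := fun x => -κ + (x - a) ^ 2 * R x with hG
  have hz : AnalyticAt ℂ (fun x : ℂ => x - a) a := analyticAt_id.sub analyticAt_const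
  have hGa : AnalyticAt ℂ G a := analyticAt_const.add ((hz.pow 2).mul hR)
  have hne : ∀ᶠ x in 𝓝[≠] a, x ≠ a := self_mem_nhdsWithin
  have h1 : ∀ᶠ x in 𝓝[≠] a, F x = (x - a) ^ (-2 : ℤ) • G x := by
    filter_upwards [hF, hne] with x h2 h3
    have h4 : x - a ≠ 0 := sub_ne_zero.2 h3
    rw [h2, hG, smul_eq_mul, zpow_neg]
    have h5 : (x - a) ^ (2 : ℤ) = (x - a) ^ 2 := by norm_cast
    rw [h5]
    field_simp
  have hm : MeromorphicAt F a := by
    have h2 : MeromorphicAt (fun x => (x - a) ^ (-2 : ℤ) • G x) a :=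
      (hz.meromorphicAt.zpow (-2)).smul hGa.meromorphicAt
    exact h2.congr (h1.mono fun x hx => hx.symm)
  refine ⟨hm, ?_⟩
  have h2 : meromorphicOrderAt F a = ((-2 : ℤ) : WithTop ℤ) :=
    (meromorphicOrderAt_eq_int_iff hm).2 ⟨G, hGa, by rw [hG]; simpa using hκ, h1⟩
  rw [h2]
  exact_mod_cast (by norm_num : (-2 : ℤ) < 0)

/-- second logarithmic derivative of `x⁴ - t` -/
noncomputable def TT (t x : ℂ) : ℂ := (-4 * x ^ 6 - 12 * t * x ^ 2) / (x ^ 4 - t) ^ 2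

/-- regular part of `TT` at a simple root -/
noncomputable def SS3 (a x : ℂ) : ℂ :=
  ((6 * x + 2 * a) * (x ^ 3 + a * x ^ 2 + a ^ 2 * x + a ^ 3)
    - (3 * x ^ 2 + 2 * a * x + a ^ 2) ^ 2) / (x ^ 3 + a * x ^ 2 + a ^ 2 * x + a ^ 3) ^ 2

theorem hasDerivAt_pow' (n : ℕ) (x : ℂ) : HasDerivAt (fun y : ℂ => y ^ n) (n * x ^ (n - 1)) x :=
  hasDerivAt_pow n x

theorem deriv_logDeriv {t₁ t₂ x : ℂ} (h1 : x ^ 4 - t₁ ≠ 0) (h2 : x ^ 4 - t₂ ≠ 0) :
    deriv (logDeriv fun y => ((X - C t₁) * (X - C t₂) : ℂ[X]).eval (y ^ 4)) x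
      = TT t₁ x + TT t₂ x := by
  have hf : (fun y : ℂ => ((X - C t₁) * (X - C t₂) : ℂ[X]).eval (y ^ 4))
      = fun y => (y ^ 4 - t₁) * (y ^ 4 - t₂) := by
    funext y
    simp
  rw [hf]
  have d4 : ∀ (t y : ℂ), HasDerivAt (fun y : ℂ => y ^ 4 - t) (4 * y ^ 3) y := by
    intro t y
    have := (hasDerivAt_pow' 4 y).sub_const t
    simpa using this
  have hl : ∀ᶠ y in 𝓝 x, logDeriv (fun y => (y ^ 4 - t₁) * (y ^ 4 - t₂)) y
      = 4 * y ^ 3 / (y ^ 4 - t₁) + 4 * y ^ 3 / (y ^ 4 - t₂) := by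
    have c1 : ContinuousAt (fun y : ℂ => y ^ 4 - t₁) x := by fun_prop
    have c2 : ContinuousAt (fun y : ℂ => y ^ 4 - t₂) x := by fun_prop
    filter_upwards [c1.eventually_ne h1, c2.eventually_ne h2] with y e1 e2
    have e0 : deriv (fun y : ℂ => (y ^ 4 - t₁) * (y ^ 4 - t₂)) y
        = 4 * y ^ 3 * (y ^ 4 - t₂) + (y ^ 4 - t₁) * (4 * y ^ 3) :=
      ((d4 t₁ y).mul (d4 t₂ y)).deriv
    rw [logDeriv_apply, e0]
    field_simp
  have hl' : logDeriv (fun y => (y ^ 4 - t₁) * (y ^ 4 - t₂)) =ᶠ[𝓝 x]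
      fun y => 4 * y ^ 3 / (y ^ 4 - t₁) + 4 * y ^ 3 / (y ^ 4 - t₂) := hl
  rw [hl'.deriv_eq]
  have d3 : HasDerivAt (fun y : ℂ => 4 * y ^ 3) (12 * x ^ 2) x := by
    refine ((hasDerivAt_pow' 3 x).const_mul 4).congr_deriv ?_
    norm_num
    ring
  have e3 : HasDerivAt (fun y : ℂ => 4 * y ^ 3 / (y ^ 4 - t₁) + 4 * y ^ 3 / (y ^ 4 - t₂))
      ((12 * x ^ 2 * (x ^ 4 - t₁) - 4 * x ^ 3 * (4 * x ^ 3)) / (x ^ 4 - t₁) ^ 2
        + (12 * x ^ 2 * (x ^ 4 - t₂) - 4 * x ^ 3 * (4 * x ^ 3)) / (x ^ 4 - t₂) ^ 2) x :=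
    (d3.div (d4 t₁ x) h1).add (d3.div (d4 t₂ x) h2)
  rw [e3.deriv]
  unfold TT
  congr 1 <;> · congr 1; ring

theorem TT_simple {a x : ℂ} (hx : x ≠ a) (hq : x ^ 3 + a * x ^ 2 + a ^ 2 * x + a ^ 3 ≠ 0) :
    TT (a ^ 4) x = -1 / (x - a) ^ 2 + SS3 a x := by
  unfold TT SS3
  have h1 : x ^ 4 - a ^ 4 = (x - a) * (x ^ 3 + a * x ^ 2 + a ^ 2 * x + a ^ 3) := by ring
  have h2 : x - a ≠ 0 := sub_ne_zero.2 hx
  rw [h1]
  have key : ∀ q : ℂ, q ≠ 0 → q = x ^ 3 + a * x ^ 2 + a ^ 2 * x + a ^ 3 →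
      (-4 * x ^ 6 - 12 * a ^ 4 * x ^ 2) / ((x - a) * q) ^ 2 = -1 / (x - a) ^ 2
        + ((6 * x + 2 * a) * q - (3 * x ^ 2 + 2 * a * x + a ^ 2) ^ 2) / q ^ 2 := by
    intro q hq0 hqd
    field_simp
    rw [hqd]
    ring
  exact key _ hq rfl

theorem TT_zero {x : ℂ} (hx : x ≠ 0) : TT 0 x = -4 / (x - 0) ^ 2 + 0 := by
  unfold TT
  field_simp
  ring

theorem analyticAt_TT {t a : ℂ} (h : a ^ 4 - t ≠ 0) : AnalyticAt ℂ (TT t) a := by
  unfold TT
  refine AnalyticAt.div (by fun_prop) (by fun_prop) ?_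
  exact pow_ne_zero 2 h

theorem q_at (a : ℂ) : a ^ 3 + a * a ^ 2 + a ^ 2 * a + a ^ 3 = 4 * a ^ 3 := by ring

theorem analyticAt_SS3 {a : ℂ} (h : a ≠ 0) : AnalyticAt ℂ (SS3 a) a := by
  unfold SS3
  refine AnalyticAt.div (by fun_prop) (by fun_prop) ?_
  rw [q_at]
  exact pow_ne_zero 2 (mul_ne_zero (by norm_num) (pow_ne_zero 3 h))

theorem hasDerivAt_TT {t a : ℂ} (h : a ^ 4 - t ≠ 0) : HasDerivAt (TT t)
    (8 * a * (a ^ 8 + 12 * t * a ^ 4 + 3 * t ^ 2) / (a ^ 4 - t) ^ 3) a := by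
  unfold TT
  have d4 : HasDerivAt (fun y : ℂ => y ^ 4 - t) (4 * a ^ 3) a := by
    have := (hasDerivAt_pow' 4 a).sub_const t
    simpa using this
  have dN : HasDerivAt (fun x : ℂ => -4 * x ^ 6 - 12 * t * x ^ 2)
      (-4 * (6 * a ^ 5) - 12 * t * (2 * a)) a := by
    have h1 := (hasDerivAt_pow' 6 a).const_mul (-4)
    have h2 := (hasDerivAt_pow' 2 a).const_mul (12 * t)
    refine (h1.sub h2).congr_deriv ?_
    norm_num
  have := dN.div (d4.pow 2) (pow_ne_zero 2 h)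
  refine this.congr_deriv ?_
  simp only [Nat.cast_ofNat, Pi.pow_apply]
  norm_num
  field_simp
  ring

theorem hasDerivAt_SS3 {a : ℂ} (h : a ≠ 0) : HasDerivAt (SS3 a) (-(3 / 4) / a ^ 3) a := by
  unfold SS3
  have dx : HasDerivAt (fun y : ℂ => y) 1 a := hasDerivAt_id a
  have dq : HasDerivAt (fun x : ℂ => x ^ 3 + a * x ^ 2 + a ^ 2 * x + a ^ 3)
      (3 * a ^ 2 + a * (2 * a) + a ^ 2 * 1) a := by
    have h1 := hasDerivAt_pow' 3 a
    have h2 := (hasDerivAt_pow' 2 a).const_mul a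
    have h3 := dx.const_mul (a ^ 2)
    refine (((h1.add h2).add h3).add_const (a ^ 3)).congr_deriv ?_
    norm_num
  have dq1 : HasDerivAt (fun x : ℂ => 3 * x ^ 2 + 2 * a * x + a ^ 2)
      (3 * (2 * a) + 2 * a * 1) a := by
    have h1 := (hasDerivAt_pow' 2 a).const_mul 3
    have h3 := dx.const_mul (2 * a)
    refine ((h1.add h3).add_const (a ^ 2)).congr_deriv ?_
    norm_num
  have dq2 : HasDerivAt (fun x : ℂ => 6 * x + 2 * a) (6 * 1) a := (dx.const_mul 6).add_const _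
  have hq : a ^ 3 + a * a ^ 2 + a ^ 2 * a + a ^ 3 ≠ 0 := by
    rw [q_at]
    exact mul_ne_zero (by norm_num) (pow_ne_zero 3 h)
  have := ((dq2.mul dq).sub (dq1.pow 2)).div (dq.pow 2) (pow_ne_zero 2 hq)
  refine this.congr_deriv ?_
  simp only [Nat.cast_ofNat, Pi.pow_apply, Pi.mul_apply, Pi.sub_apply]
  rw [q_at] at hq ⊢
  norm_num
  field_simp
  ring

/-! ### The cases -/

theorem ev_ne {a : ℂ} : ∀ᶠ x in 𝓝[≠] a, x ≠ a := self_mem_nhdsWithin

theorem ev_reg {a t : ℂ} (h : a ^ 4 - t ≠ 0) : ∀ᶠ x in 𝓝[≠] a, x ^ 4 - t ≠ 0 := by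
  have c : ContinuousAt (fun y : ℂ => y ^ 4 - t) a := by fun_prop
  exact (c.eventually_ne h).filter_mono nhdsWithin_le_nhds

theorem ev_q {a : ℂ} (h : a ≠ 0) :
    ∀ᶠ x in 𝓝[≠] a, x ^ 3 + a * x ^ 2 + a ^ 2 * x + a ^ 3 ≠ 0 := by
  have c : ContinuousAt (fun x : ℂ => x ^ 3 + a * x ^ 2 + a ^ 2 * x + a ^ 3) a := by fun_prop
  refine (c.eventually_ne ?_).filter_mono nhdsWithin_le_nhds
  rw [q_at]
  exact mul_ne_zero (by norm_num) (pow_ne_zero 3 h)

theorem sub_ne_of_q {a x : ℂ} (hx : x ≠ a) (hq : x ^ 3 + a * x ^ 2 + a ^ 2 * x + a ^ 3 ≠ 0) :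
    x ^ 4 - a ^ 4 ≠ 0 := by
  have h1 : x ^ 4 - a ^ 4 = (x - a) * (x ^ 3 + a * x ^ 2 + a ^ 2 * x + a ^ 3) := by ring
  rw [h1]
  exact mul_ne_zero (sub_ne_zero.2 hx) hq

/-- the equation satisfied by the roots -/
theorem blz {t₁ t₂ : ℂ} (h12 : t₁ ≠ t₂) (h1 : t₁ ≠ 0)
    (hM : ((X - C t₁) * (X - C t₂) : ℂ[X]) ∈ monsters 0 2) :
    (t₁ + 1) * (t₁ - t₂) ^ 3 = 8 * t₁ * (t₁ ^ 2 + 12 * t₁ * t₂ + 3 * t₂ ^ 2) := by
  obtain ⟨a, rfl⟩ := IsAlgClosed.exists_pow_nat_eq t₁ (n := 4) (by norm_num)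
  have ha : a ≠ 0 := fun h => h1 (by rw [h]; norm_num)
  have hd : a ^ 4 - t₂ ≠ 0 := sub_ne_zero.2 h12
  have hR : AnalyticAt ℂ (fun x => SS3 a x + TT t₂ x) a :=
    (analyticAt_SS3 ha).add (analyticAt_TT hd)
  have hF : ∀ᶠ x in 𝓝[≠] a,
      deriv (logDeriv fun y => ((X - C (a ^ 4)) * (X - C t₂) : ℂ[X]).eval (y ^ 4)) x
      = -1 / (x - a) ^ 2 + (SS3 a x + TT t₂ x) := by
    filter_upwards [ev_ne, ev_reg hd, ev_q ha] with x e1 e2 e3
    rw [deriv_logDeriv (sub_ne_of_q e1 e3) e2, TT_simple e1 e3, add_assoc]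
  have hpole := pole_of hR one_ne_zero hF
  have ht := hM.2.2 0 a hpole
  have hinv : AnalyticAt ℂ (fun x : ℂ => (0 ^ 2 - 1 / 4) / x ^ 2) a :=
    analyticAt_const.div (by fun_prop) (pow_ne_zero 2 ha)
  have hk : AnalyticAt ℂ (fun x => x ^ 2 + (0 ^ 2 - 1 / 4) / x ^ 2
      - 2 * (SS3 a x + TT t₂ x)) a :=
    (AnalyticAt.add (by fun_prop) hinv).sub (analyticAt_const.mul hR)
  have hz := deriv_zero hk (U := pot 0 ((X - C (a ^ 4)) * (X - C t₂))) (E := 0) (by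
    filter_upwards [hF, ev_ne] with x e1 e2
    have e3 : x - a ≠ 0 := sub_ne_zero.2 e2
    unfold pot
    rw [e1]
    field_simp
    ring) ht
  have d2 : HasDerivAt (fun x : ℂ => x ^ 2) (2 * a) a := by
    refine (hasDerivAt_pow' 2 a).congr_deriv ?_
    norm_num
  have dinv : HasDerivAt (fun x : ℂ => (0 ^ 2 - 1 / 4 : ℂ) / x ^ 2) (1 / 2 / a ^ 3) a := by
    refine ((hasDerivAt_const a (0 ^ 2 - 1 / 4 : ℂ)).div d2 (pow_ne_zero 2 ha)).congr_deriv ?_
    field_simp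
    ring
  have dk : HasDerivAt (fun x => x ^ 2 + (0 ^ 2 - 1 / 4) / x ^ 2 - 2 * (SS3 a x + TT t₂ x))
      (2 * a + 1 / 2 / a ^ 3 - 2 * (-(3 / 4) / a ^ 3
        + 8 * a * (a ^ 8 + 12 * t₂ * a ^ 4 + 3 * t₂ ^ 2) / (a ^ 4 - t₂) ^ 3)) a :=
    (d2.add dinv).sub (((hasDerivAt_SS3 ha).add (hasDerivAt_TT hd)).const_mul 2)
  rw [dk.deriv] at hz
  field_simp at hz
  have ha3 : a ^ 3 ≠ 0 := pow_ne_zero 3 ha
  linear_combination (1 / 16) * hz

/-- the exponent at a pole -/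
theorem exp_case {t₁ t₂ a c : ℂ} {h R : ℂ → ℂ} {κ : ℂ}
    (hM : ((X - C t₁) * (X - C t₂) : ℂ[X]) ∈ monsters 0 2) (hR : AnalyticAt ℂ R a) (hκ : κ ≠ 0)
    (hF : ∀ᶠ x in 𝓝[≠] a,
      deriv (logDeriv fun y => ((X - C t₁) * (X - C t₂) : ℂ[X]).eval (y ^ 4)) x
      = -κ / (x - a) ^ 2 + R x) (hh : AnalyticAt ℂ h a) (hc : h a = c)
    (hU : ∀ᶠ x in 𝓝[≠] a, (x - a) ^ 2 * (x ^ 2 + (0 ^ 2 - 1 / 4) / x ^ 2
      - 2 * (-κ / (x - a) ^ 2 + R x)) = h x) :
    ∃ m : ℤ, (m : ℂ) * (m - 1) = c := by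
  have hpole := pole_of hR hκ hF
  have ht := hM.2.2 0 a hpole
  rw [← hc]
  refine exists_exponent hh ?_ ht
  filter_upwards [hF, hU] with x e1 e2
  unfold pot
  rw [e1, sub_zero, e2]

theorem int_of (m : ℤ) {c : ℂ} {k : ℤ} (h : (m : ℂ) * (m - 1) = c) (hc : 4 * c = (k : ℂ)) :
    4 * (m * (m - 1)) = k := by
  have h1 : ((4 * (m * (m - 1)) : ℤ) : ℂ) = (k : ℂ) := by
    push_cast
    rw [h, hc]
  exact_mod_cast h1

/-- There is no monster potential of momentum `0` and degree `2`. -/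
theorem monsters_empty : monsters 0 2 = ∅ := by
  rw [Set.eq_empty_iff_forall_notMem]
  intro P hP
  obtain ⟨t₁, t₂, rfl⟩ : ∃ t₁ t₂ : ℂ, P = (X - C t₁) * (X - C t₂) := by
    have hs := IsAlgClosed.splits P
    have h1 := hs.eq_prod_roots_of_monic hP.1
    have h2 : Multiset.card P.roots = 2 := by
      rw [← hs.natDegree_eq_card_roots, hP.2.1]
    obtain ⟨t₁, t₂, h3⟩ := Multiset.card_eq_two.1 h2
    refine ⟨t₁, t₂, ?_⟩
    rw [h1, h3]
    simp
  by_cases h12 : t₁ = t₂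
  · subst h12
    obtain ⟨a, rfl⟩ := IsAlgClosed.exists_pow_nat_eq t₁ (n := 4) (by norm_num)
    by_cases ha : a = 0
    · -- both roots are zero
      subst ha
      have h4 : (0 : ℂ) ^ 4 = 0 := by norm_num
      obtain ⟨m, hm⟩ := exp_case (a := 0) (κ := 8) (c := 63 / 4) (h := fun x => x ^ 4 + 63 / 4)
        (R := fun _ => 0) hP analyticAt_const (by norm_num) (by
          filter_upwards [ev_ne] with x e1
          have e2 : x ^ 4 - 0 ^ 4 ≠ 0 := by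
            rw [h4, sub_zero]
            exact pow_ne_zero 4 e1
          rw [deriv_logDeriv e2 e2, h4, TT_zero e1]
          ring) (by fun_prop) (by norm_num) (by
          filter_upwards [ev_ne] with x e1
          field_simp
          ring)
      have := int_of m (k := 63) hm (by norm_num)
      omega
    · -- a double root
      have hS := analyticAt_SS3 ha
      obtain ⟨m, hm⟩ := exp_case (a := a) (κ := 2) (c := 4)
        (h := fun x => 4 + (x - a) ^ 2 * (x ^ 2 + (0 ^ 2 - 1 / 4) / x ^ 2 - 4 * SS3 a x))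
        (R := fun x => 2 * SS3 a x) hP (analyticAt_const.mul hS) (by norm_num) (by
          filter_upwards [ev_ne, ev_q ha] with x e1 e2
          rw [deriv_logDeriv (sub_ne_of_q e1 e2) (sub_ne_of_q e1 e2), TT_simple e1 e2]
          ring) (by
          have hinv : AnalyticAt ℂ (fun x : ℂ => (0 ^ 2 - 1 / 4) / x ^ 2) a :=
            analyticAt_const.div (by fun_prop) (pow_ne_zero 2 ha)
          exact analyticAt_const.add (AnalyticAt.mul (by fun_prop)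
            ((AnalyticAt.add (by fun_prop) hinv).sub (analyticAt_const.mul hS)))) (by
          simp) (by
          filter_upwards [ev_ne] with x e1
          have e3 : x - a ≠ 0 := sub_ne_zero.2 e1
          field_simp
          ring)
      have h5 := int_of m (k := 16) hm (by norm_num)
      have h6 : m * (m - 1) = 4 := by omega
      have h7 : m < 3 := by nlinarith
      have h8 : -2 < m := by nlinarith
      interval_cases m <;> omega
  · -- a zero root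
    have zero_case : ∀ t : ℂ, t ≠ 0 → ((X - C 0) * (X - C t) : ℂ[X]) ∈ monsters 0 2 → False := by
      intro t ht hM
      have hd : (0 : ℂ) ^ 4 - t ≠ 0 := by
        have : (0 : ℂ) ^ 4 = 0 := by norm_num
        rw [this, zero_sub]
        exact neg_ne_zero.2 ht
      have hT := analyticAt_TT hd
      obtain ⟨m, hm⟩ := exp_case (a := 0) (κ := 4) (c := 31 / 4)
        (h := fun x => 31 / 4 + x ^ 2 * (x ^ 2 - 2 * TT t x))
        (R := TT t) hM hT (by norm_num) (by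
          filter_upwards [ev_ne, ev_reg hd] with x e1 e2
          have e3 : x ^ 4 - 0 ≠ 0 := by
            rw [sub_zero]
            exact pow_ne_zero 4 e1
          rw [deriv_logDeriv e3 e2, TT_zero e1]
          ring) (by
          exact analyticAt_const.add (AnalyticAt.mul (by fun_prop)
            (AnalyticAt.sub (by fun_prop) (analyticAt_const.mul hT)))) (by
          simp) (by
          filter_upwards [ev_ne] with x e1
          rw [sub_zero]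
          field_simp
          ring)
      have := int_of m (k := 31) hm (by norm_num)
      omega
    by_cases h1 : t₁ = 0
    · subst h1
      exact zero_case t₂ (fun h => h12 h.symm) hP
    by_cases h2 : t₂ = 0
    · subst h2
      rw [mul_comm] at hP
      exact zero_case t₁ h1 hP
    -- two different nonzero roots
    have e1 := blz h12 h1 hP
    rw [mul_comm] at hP
    have e2 := blz (Ne.symm h12) h2 hP
    have hδ : t₁ - t₂ ≠ 0 := sub_ne_zero.2 h12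
    set s := t₁ + t₂ with hs
    set D := (t₁ - t₂) ^ 2 with hD
    have hDne : D ≠ 0 := pow_ne_zero 2 hδ
    have f1 : D ^ 2 = 8 * s * (4 * s ^ 2 - 3 * D) := by
      rw [hs, hD]
      linear_combination e1 + e2
    have f2 : D * (s + 18) = 24 * s ^ 2 := by
      apply mul_left_cancel₀ hδ
      rw [hs, hD]
      linear_combination e1 - e2
    have f3 : s ^ 5 = 0 := by
      have f4 : -32 * s ^ 5 = 0 := by
        linear_combination (s + 18) ^ 2 * f1 - (D * (s + 18) + 24 * s ^ 2 + 24 * s * (s + 18)) * f2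
      have : (-32 : ℂ) ≠ 0 := by norm_num
      exact (mul_eq_zero.1 f4).resolve_left this
    have f5 : s = 0 := pow_eq_zero_iff (by norm_num) |>.1 f3
    rw [f5] at f1
    apply hDne
    have f6 : D ^ 2 = 0 := by
      rw [f1]
      ring
    exact pow_eq_zero_iff (by norm_num) |>.1 f6

end Pool.Agent.Monster
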