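import Pool.Agent.Monster.Fock

/-! Highest weight modules of the Virasoro algebra. -/

set_option linter.unusedSectionVars false

namespace Pool.Agent.Monster

/-! ### The algebra -/

theorem Lg_rel (c : ℂ) (m n : ℤ) : Lg c m * Lg c n = Lg c n * Lg c m
    + ((m : ℂ) - n) • Lg c (m + n)
    + algebraMap ℂ _ (if m + n = 0 then c * ((m : ℂ) ^ 3 - m) / 12 else 0) := by
  have h := RingQuot.mkAlgHom_rel ℂ (VirRel.comm (c := c) m n)
  rw [map_mul, map_add, map_add, map_mul, map_smul, AlgHom.commutes] at h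
  exact h

theorem Lg_comm {c : ℂ} {M : Type*} [AddCommGroup M] [Module (VirAlg c) M] [Module ℂ M]
    [IsScalarTower ℂ (VirAlg c) M] (m n : ℤ) (x : M) :
    Lg c m • Lg c n • x = Lg c n • Lg c m • x + ((m : ℂ) - n) • Lg c (m + n) • x
      + (if m + n = 0 then c * ((m : ℂ) ^ 3 - m) / 12 else 0) • x := by
  rw [smul_smul, Lg_rel, add_smul, add_smul, smul_smul, smul_assoc, algebraMap_smul]

/-- induction on the algebra -/
theorem vir_induction {c : ℂ} {p : VirAlg c → Prop} (h1 : ∀ t : ℂ, p (algebraMap ℂ _ t))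
    (h2 : ∀ n, p (Lg c n)) (h3 : ∀ a b, p a → p b → p (a * b))
    (h4 : ∀ a b, p a → p b → p (a + b)) (a : VirAlg c) : p a := by
  obtain ⟨x, rfl⟩ := RingQuot.mkAlgHom_surjective ℂ (VirRel c) a
  induction x using FreeAlgebra.induction with
  | grade0 t => rw [AlgHom.commutes]; exact h1 t
  | grade1 n => exact h2 n
  | mul a b ha hb => rw [map_mul]; exact h3 _ _ ha hb
  | add a b ha hb => rw [map_add]; exact h4 _ _ ha hb

/-! ### The Fock representation and the Verma module -/

/-- the Fock representation -/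
noncomputable def rho {c b : ℂ} (μ : ℂ) (hc : c = 1 - 12 * b ^ 2) : VirAlg c →ₐ[ℂ] OpR :=
  RingQuot.liftAlgHom ℂ ⟨FreeAlgebra.lift ℂ (Lop b μ), by
    intro x y hxy
    obtain ⟨m, n⟩ := hxy
    apply LinearMap.ext
    intro p
    rw [map_mul, map_add, map_add, map_mul, map_smul, AlgHom.commutes, FreeAlgebra.lift_ι_apply,
      FreeAlgebra.lift_ι_apply, FreeAlgebra.lift_ι_apply]
    have h := virasoro b μ m n p
    simp only [Module.End.mul_apply, LinearMap.add_apply, LinearMap.smul_apply,
      Module.algebraMap_end_apply]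
    rw [h, hc]⟩

theorem rho_Lg {c b : ℂ} (μ : ℂ) (hc : c = 1 - 12 * b ^ 2) (n : ℤ) :
    rho μ hc (Lg c n) = Lop b μ n := by
  unfold rho Lg
  rw [RingQuot.liftAlgHom_mkAlgHom_apply, FreeAlgebra.lift_ι_apply]

/-- the vacuum -/
noncomputable def vac (c h : ℂ) : Verma c h := Submodule.Quotient.mk (p := vermaIdeal c h) 1

theorem vac_ne_zero {c b μ h : ℂ} (hc : c = 1 - 12 * b ^ 2) (hh : h = 1 / 2 * μ ^ 2 - b * μ) :
    vac c h ≠ 0 := by
  intro h0
  have h1 : (1 : VirAlg c) ∈ vermaIdeal c h := (Submodule.Quotient.mk_eq_zero _).1 h0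
  have h2 : ∀ x ∈ vermaIdeal c h, rho μ hc x 1 = 0 := by
    intro x hx
    unfold vermaIdeal at hx
    induction hx using Submodule.span_induction with
    | mem x hx =>
      rcases hx with ⟨n, hn, rfl⟩ | hx
      · rw [rho_Lg, Lop_pos_one b μ hn]
      · rw [Set.mem_singleton_iff] at hx
        rw [hx, map_sub, rho_Lg, AlgHom.commutes, LinearMap.sub_apply, Lop_zero_one,
          Module.algebraMap_end_apply, hh, sub_self]
    | zero => rw [map_zero, LinearMap.zero_apply]
    | add x y _ _ hx hy => rw [map_add, LinearMap.add_apply, hx, hy, add_zero]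
    | smul a x _ hx => rw [smul_eq_mul, map_mul, Module.End.mul_apply, hx, map_zero]
  have h3 := h2 1 h1
  rw [map_one (rho μ hc), Module.End.one_apply] at h3
  exact one_ne_zero h3

noncomputable instance (c h : ℂ) : Module ℂ (Verma c h) :=
  Module.compHom (Verma c h) (algebraMap ℂ (VirAlg c))

instance (c h : ℂ) : IsScalarTower ℂ (VirAlg c) (Verma c h) :=
  ⟨fun t a w => by
    have : t • a • w = algebraMap ℂ (VirAlg c) t • a • w := rfl
    rw [this, Algebra.smul_def, mul_smul]⟩

instance (c h : ℂ) : IsScalarTower ℂ (VirAlg c) (Irr c h) :=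
  ⟨fun t a w => by
    have : t • a • w = algebraMap ℂ (VirAlg c) t • a • w := rfl
    rw [this, Algebra.smul_def, mul_smul]⟩

/-! ### Highest weight modules -/

section HW

variable {c h : ℂ} {M : Type*} [AddCommGroup M] [Module (VirAlg c) M] [Module ℂ M]
    [IsScalarTower ℂ (VirAlg c) M]

theorem smul_comm' (a : VirAlg c) (t : ℂ) (x : M) : a • t • x = t • a • x := by
  rw [← algebraMap_smul (VirAlg c) t x, ← algebraMap_smul (VirAlg c) t (a • x), smul_smul,
    smul_smul, Algebra.commutes]

/-- `v` is a highest weight vector of weight `h` generating the module -/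
structure IsHW (h : ℂ) (v : M) : Prop where
  pos : ∀ n : ℤ, 0 < n → Lg c n • v = 0
  zero : Lg c 0 • v = h • v
  gen : Submodule.span (VirAlg c) {v} = ⊤

/-- words in the negative generators -/
noncomputable def wd (c : ℂ) {M : Type*} [AddCommGroup M] [Module (VirAlg c) M] (v : M) :
    List ℕ → M
  | [] => v
  | i :: l => Lg c (-((i : ℤ) + 1)) • wd c v l

/-- degree of a word -/
def dg : List ℕ → ℕ
  | [] => 0
  | i :: l => (i + 1) + dg l

theorem L0_wd {v : M} (hv : IsHW (c := c) h v) (l : List ℕ) :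
    Lg c 0 • wd c v l = (h + dg l : ℂ) • wd c v l := by
  induction l with
  | nil =>
    simp only [wd, dg]
    rw [hv.zero]
    simp
  | cons i l ih =>
    simp only [wd, dg]
    rw [Lg_comm, ih, if_neg (by omega), zero_smul, add_zero, zero_add, smul_comm', ← add_smul]
    congr 1
    push_cast
    ring

/-- the span of the words -/
noncomputable def SS (c : ℂ) {M : Type*} [AddCommGroup M] [Module (VirAlg c) M] [Module ℂ M]
    (v : M) : Submodule ℂ M := Submodule.span ℂ (Set.range (wd c v))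

theorem wd_mem (v : M) (l : List ℕ) : wd c v l ∈ SS c v := Submodule.subset_span ⟨l, rfl⟩

theorem SS_neg (v : M) (i : ℕ) {x : M} (hx : x ∈ SS c v) :
    Lg c (-((i : ℤ) + 1)) • x ∈ SS c v := by
  unfold SS at hx
  induction hx using Submodule.span_induction with
  | mem x hx =>
    obtain ⟨l, rfl⟩ := hx
    exact wd_mem v (i :: l)
  | zero => rw [smul_zero]; exact Submodule.zero_mem _
  | add x y _ _ hx hy => rw [smul_add]; exact Submodule.add_mem _ hx hy
  | smul t x _ hx => rw [smul_comm']; exact Submodule.smul_mem _ _ hx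

theorem SS_nonneg {v : M} (hv : IsHW (c := c) h v) (l : List ℕ) :
    ∀ k : ℕ, Lg c (k : ℤ) • wd c v l ∈ SS c v := by
  induction l with
  | nil =>
    intro k
    simp only [wd]
    rcases Nat.eq_zero_or_pos k with rfl | hk
    · rw [Nat.cast_zero, hv.zero]
      exact Submodule.smul_mem _ _ (wd_mem v [])
    · rw [hv.pos _ (by omega)]
      exact Submodule.zero_mem _
  | cons i l ih =>
    intro k
    simp only [wd]
    rw [Lg_comm]
    refine Submodule.add_mem _ (Submodule.add_mem _ (SS_neg v i (ih k))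
      (Submodule.smul_mem _ _ ?_)) (Submodule.smul_mem _ _ (wd_mem v l))
    rcases lt_or_ge ((k : ℤ) + -((i : ℤ) + 1)) 0 with h1 | h1
    · obtain ⟨j, hj⟩ : ∃ j : ℕ, (k : ℤ) + -((i : ℤ) + 1) = -((j : ℤ) + 1) :=
        ⟨i - k, by omega⟩
      rw [hj]
      exact wd_mem v (j :: l)
    · obtain ⟨j, hj⟩ : ∃ j : ℕ, (k : ℤ) + -((i : ℤ) + 1) = (j : ℤ) :=
        ⟨k - (i + 1), by omega⟩
      rw [hj]
      exact ih j

theorem SS_stable {v : M} (hv : IsHW (c := c) h v) (a : VirAlg c) :
    ∀ x ∈ SS c v, a • x ∈ SS c v := by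
  refine vir_induction (p := fun a => ∀ x ∈ SS c v, a • x ∈ SS c v) ?_ ?_ ?_ ?_ a
  · intro t x hx
    rw [algebraMap_smul]
    exact Submodule.smul_mem _ _ hx
  · intro n x hx
    rcases lt_or_ge n 0 with hn | hn
    · obtain ⟨j, rfl⟩ : ∃ j : ℕ, n = -((j : ℤ) + 1) := ⟨(-n).toNat - 1, by omega⟩
      exact SS_neg v j hx
    · obtain ⟨j, rfl⟩ : ∃ j : ℕ, n = (j : ℤ) := ⟨n.toNat, by omega⟩
      unfold SS at hx
      induction hx using Submodule.span_induction with
      | mem x hx =>
        obtain ⟨l, rfl⟩ := hx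
        exact SS_nonneg hv l j
      | zero => rw [smul_zero]; exact Submodule.zero_mem _
      | add x y _ _ hx hy => rw [smul_add]; exact Submodule.add_mem _ hx hy
      | smul t x _ hx => rw [smul_comm']; exact Submodule.smul_mem _ _ hx
  · intro a b ha hb x hx
    rw [mul_smul]
    exact ha _ (hb _ hx)
  · intro a b ha hb x hx
    rw [add_smul]
    exact Submodule.add_mem _ (ha _ hx) (hb _ hx)

theorem SS_top {v : M} (hv : IsHW (c := c) h v) (x : M) : x ∈ SS c v := by
  have h1 : x ∈ Submodule.span (VirAlg c) {v} := by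
    rw [hv.gen]
    exact Submodule.mem_top
  obtain ⟨a, rfl⟩ := Submodule.mem_span_singleton.1 h1
  exact SS_stable hv a _ (wd_mem v [])

/-- decomposition into homogeneous components -/
theorem decomp {v : M} (hv : IsHW (c := c) h v) (x : M) : ∃ f : ℕ →₀ M,
    (∀ d, f d ∈ Submodule.span ℂ (wd c v '' {l | dg l = d})) ∧ f.sum (fun _ y => y) = x := by
  have hx := SS_top hv x
  unfold SS at hx
  induction hx using Submodule.span_induction with
  | mem x hx =>
    obtain ⟨l, rfl⟩ := hx
    refine ⟨Finsupp.single (dg l) (wd c v l), fun d => ?_, ?_⟩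
    · by_cases h : dg l = d
      · subst h
        rw [Finsupp.single_eq_same]
        exact Submodule.subset_span ⟨l, rfl, rfl⟩
      · rw [Finsupp.single_eq_of_ne (fun h' => h h'.symm)]
        exact Submodule.zero_mem _
    · rw [Finsupp.sum_single_index rfl]
  | zero => exact ⟨0, fun d => Submodule.zero_mem _, Finsupp.sum_zero_index⟩
  | add x y _ _ hx hy =>
    obtain ⟨f, hf1, hf2⟩ := hx
    obtain ⟨g, hg1, hg2⟩ := hy
    refine ⟨f + g, fun d => Submodule.add_mem _ (hf1 d) (hg1 d), ?_⟩
    rw [Finsupp.sum_add_index' (fun _ => rfl) (fun _ _ _ => rfl), hf2, hg2]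
  | smul t x _ hx =>
    obtain ⟨f, hf1, hf2⟩ := hx
    refine ⟨t • f, fun d => Submodule.smul_mem _ _ (hf1 d), ?_⟩
    rw [Finsupp.sum_smul_index' (fun _ => rfl), ← hf2, Finsupp.smul_sum]

theorem L0_span {v : M} (hv : IsHW (c := c) h v) {d : ℕ} {x : M}
    (hx : x ∈ Submodule.span ℂ (wd c v '' {l | dg l = d})) :
    Lg c 0 • x = (h + d : ℂ) • x := by
  induction hx using Submodule.span_induction with
  | mem x hx =>
    obtain ⟨l, hl, rfl⟩ := hx
    rw [L0_wd hv, hl]
  | zero => rw [smul_zero, smul_zero]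
  | add x y _ _ hx hy => rw [smul_add, smul_add, hx, hy]
  | smul t x _ hx => rw [smul_comm', hx, smul_comm]

theorem dg_zero {l : List ℕ} (h : dg l = 0) : l = [] := by
  cases l with
  | nil => rfl
  | cons i l =>
    unfold dg at h
    omega

theorem span_zero {v : M} {x : M} (hx : x ∈ Submodule.span ℂ (wd c v '' {l | dg l = 0})) :
    ∃ t : ℂ, x = t • v := by
  have h1 : wd c v '' {l | dg l = 0} = {v} := by
    ext y
    constructor
    · rintro ⟨l, hl, rfl⟩
      rw [dg_zero hl]
      rfl
    · intro hy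
      rw [Set.mem_singleton_iff] at hy
      exact ⟨[], rfl, hy.symm⟩
  rw [h1] at hx
  obtain ⟨t, ht⟩ := Submodule.mem_span_singleton.1 hx
  exact ⟨t, ht.symm⟩

/-- eigenvectors of `L_0` with different eigenvalues are independent -/
theorem indep (h : ℂ) (F : Finset ℕ) (w : ℕ → M) (hw : ∀ d ∈ F, Lg c 0 • w d = (h + d : ℂ) • w d)
    (hs : ∑ d ∈ F, w d = 0) : ∀ d ∈ F, w d = 0 := by
  classical
  induction F using Finset.induction_on generalizing w with
  | empty => intro d hd; exact absurd hd (Finset.notMem_empty d)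
  | insert a F ha ih =>
    rw [Finset.sum_insert ha] at hs
    have h1 : ∑ d ∈ F, ((d : ℂ) - a) • w d = 0 := by
      have e1 : Lg c 0 • (w a + ∑ d ∈ F, w d) = 0 := by rw [hs, smul_zero]
      have e2 : (h + a : ℂ) • (w a + ∑ d ∈ F, w d) = 0 := by rw [hs, smul_zero]
      rw [smul_add, hw a (Finset.mem_insert_self _ _), Finset.smul_sum] at e1
      rw [smul_add, Finset.smul_sum] at e2
      have e3 : ∑ d ∈ F, Lg c 0 • w d = ∑ d ∈ F, (h + d : ℂ) • w d :=
        Finset.sum_congr rfl fun d hd => hw d (Finset.mem_insert_of_mem hd)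
      rw [e3] at e1
      have e4 : ∑ d ∈ F, ((d : ℂ) - a) • w d
          = ∑ d ∈ F, (h + d : ℂ) • w d - ∑ d ∈ F, (h + a : ℂ) • w d := by
        rw [← Finset.sum_sub_distrib]
        refine Finset.sum_congr rfl fun d _ => ?_
        rw [← sub_smul]
        congr 1
        ring
      rw [e4]
      have e5 := e1.trans e2.symm
      have e6 : ∑ d ∈ F, (h + d : ℂ) • w d = ∑ d ∈ F, (h + a : ℂ) • w d := add_left_cancel e5
      rw [e6, sub_self]
    have h2 := ih (fun d => ((d : ℂ) - a) • w d) (fun d hd => by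
      rw [smul_comm', hw d (Finset.mem_insert_of_mem hd), smul_comm]) h1
    have h3 : ∀ d ∈ F, w d = 0 := by
      intro d hd
      have h4 : (d : ℂ) - a ≠ 0 := by
        rw [sub_ne_zero]
        intro h5
        have : d = a := by exact_mod_cast h5
        exact ha (this ▸ hd)
      exact (smul_eq_zero.1 (h2 d hd)).resolve_left h4
    intro d hd
    rcases Finset.mem_insert.1 hd with rfl | hd
    · rw [Finset.sum_eq_zero h3, add_zero] at hs
      exact hs
    · exact h3 d hd

theorem indep' (h : ℂ) (f : ℕ →₀ M) (hf : ∀ d, Lg c 0 • f d = (h + d : ℂ) • f d)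
    (hs : f.sum (fun _ y => y) = 0) : f = 0 := by
  ext d
  by_cases hd : d ∈ f.support
  · exact indep h f.support f (fun d _ => hf d) hs d hd
  · exact Finsupp.notMem_support_iff.1 hd

/-- sums of eigenvectors of positive degree -/
def Pos (h : ℂ) (x : M) : Prop := ∃ f : ℕ →₀ M, f 0 = 0 ∧
  (∀ d, Lg c 0 • f d = (h + d : ℂ) • f d) ∧ f.sum (fun _ y => y) = x

theorem Pos.add {x y : M} (hx : Pos (c := c) h x) (hy : Pos (c := c) h y) :
    Pos (c := c) h (x + y) := by
  obtain ⟨f, f0, f1, f2⟩ := hx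
  obtain ⟨g, g0, g1, g2⟩ := hy
  refine ⟨f + g, by rw [Finsupp.add_apply, f0, g0, add_zero], fun d => ?_, ?_⟩
  · rw [Finsupp.add_apply, smul_add, smul_add, f1, g1]
  · rw [Finsupp.sum_add_index' (fun _ => rfl) (fun _ _ _ => rfl), f2, g2]

theorem not_pos_hw {v : M} (hv : IsHW (c := c) h v) (hv0 : v ≠ 0) : ¬ Pos (c := c) h v := by
  rintro ⟨f, f0, f1, f2⟩
  have h1 := indep' (c := c) h (f - Finsupp.single 0 v) (fun d => by
    rw [Finsupp.sub_apply, smul_sub, smul_sub, f1]
    congr 1
    by_cases hd : d = 0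
    · subst hd
      rw [Finsupp.single_eq_same, hv.zero]
      simp
    · rw [Finsupp.single_eq_of_ne hd, smul_zero, smul_zero]) (by
    rw [Finsupp.sum_sub_index (fun _ _ _ => rfl), f2, Finsupp.sum_single_index rfl, sub_self])
  have h2 := congrArg (fun g : ℕ →₀ M => g 0) h1
  simp only [Finsupp.sub_apply, Finsupp.single_eq_same, f0, Finsupp.zero_apply, zero_sub,
    neg_eq_zero] at h2
  exact hv0 h2

/-- a submodule not containing the highest weight vector consists of vectors of positive
degree -/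
theorem pos_of_mem {v : M} (hv : IsHW (c := c) h v) {N : Submodule (VirAlg c) M} (hN : v ∉ N)
    {x : M} (hx : x ∈ N) : Pos (c := c) h x := by
  obtain ⟨f, hf1, hf2⟩ := decomp hv x
  have hf3 : ∀ d, Lg c 0 • f d = (h + d : ℂ) • f d := fun d => L0_span hv (hf1 d)
  refine ⟨f, ?_, hf3, hf2⟩
  obtain ⟨t, ht⟩ := span_zero (hf1 0)
  -- pass to the quotient
  have h1 : f 0 ∈ N := by
    have h2 := indep (c := c) (M := M ⧸ N) h f.support
      (fun d => Submodule.Quotient.mk (f d)) ?_ ?_ 0
    · by_cases h0 : (0 : ℕ) ∈ f.support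
      · exact (Submodule.Quotient.mk_eq_zero N).1 (h2 h0)
      · rw [Finsupp.notMem_support_iff.1 h0]
        exact N.zero_mem
    · intro d _
      rw [← Submodule.Quotient.mk_smul, hf3]
      rfl
    · have h3 : (Submodule.Quotient.mk x : M ⧸ N) = 0 := (Submodule.Quotient.mk_eq_zero N).2 hx
      rw [← hf2, Finsupp.sum] at h3
      rw [← h3]
      exact (map_sum N.mkQ _ _).symm
  by_cases ht0 : t = 0
  · rw [ht, ht0, zero_smul]
  · exfalso
    apply hN
    have h4 : algebraMap ℂ (VirAlg c) t⁻¹ • f 0 ∈ N := N.smul_mem _ h1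
    rw [algebraMap_smul, ht, smul_smul, inv_mul_cancel₀ ht0, one_smul] at h4
    exact h4

end HW

/-! ### The Verma module and its irreducible quotient -/

theorem vac_hw (c h : ℂ) : IsHW (c := c) h (vac c h) := by
  have key : ∀ a : VirAlg c, a • vac c h = Submodule.Quotient.mk (p := vermaIdeal c h) a := by
    intro a
    have h1 : a • vac c h = Submodule.Quotient.mk (p := vermaIdeal c h) (a • 1) := rfl
    rw [h1, smul_eq_mul, mul_one]
  refine ⟨?_, ?_, ?_⟩
  · intro n hn
    rw [key]
    exact (Submodule.Quotient.mk_eq_zero _).2 (Submodule.subset_span (Or.inl ⟨n, hn, rfl⟩))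
  · have h2 : h • vac c h = algebraMap ℂ (VirAlg c) h • vac c h := rfl
    rw [h2, key, key]
    exact (Submodule.Quotient.eq _).2 (Submodule.subset_span (Or.inr rfl))
  · rw [eq_top_iff]
    intro x _
    obtain ⟨a, rfl⟩ := Submodule.Quotient.mk_surjective (vermaIdeal c h) x
    rw [← key]
    exact Submodule.smul_mem _ _ (Submodule.mem_span_singleton_self _)

theorem proper_iff {c h : ℂ} {N : Submodule (VirAlg c) (Verma c h)} (hN : N ≠ ⊤) :
    vac c h ∉ N := by
  intro hv
  apply hN
  rw [eq_top_iff, ← (vac_hw c h).gen]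
  exact (Submodule.span_singleton_le_iff_mem _ _).2 hv

theorem pos_of_maxSub {c h : ℂ} {x : Verma c h} (hx : x ∈ maxSub c h) : Pos (c := c) h x := by
  unfold maxSub at hx
  rw [sSup_eq_iSup'] at hx
  induction hx using Submodule.iSup_induction' with
  | mem N x hx => exact pos_of_mem (vac_hw c h) (proper_iff N.2) hx
  | zero =>
    refine ⟨0, rfl, fun d => ?_, Finsupp.sum_zero_index⟩
    rw [Finsupp.zero_apply, smul_zero, smul_zero]
  | add x y _ _ hx hy => exact hx.add hy

theorem vac_notMem {c h : ℂ} (h0 : vac c h ≠ 0) : vac c h ∉ maxSub c h :=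
  fun hm => not_pos_hw (vac_hw c h) h0 (pos_of_maxSub hm)

/-- the highest weight vector of the irreducible module -/
noncomputable def vir (c h : ℂ) : Irr c h := Submodule.Quotient.mk (p := maxSub c h) (vac c h)

theorem vir_hw (c h : ℂ) : IsHW (c := c) h (vir c h) := by
  have key : ∀ a : VirAlg c, a • vir c h
      = Submodule.Quotient.mk (p := maxSub c h) (a • vac c h) := fun _ => rfl
  refine ⟨?_, ?_, ?_⟩
  · intro n hn
    rw [key, (vac_hw c h).pos n hn]
    rfl
  · rw [key, (vac_hw c h).zero]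
    rfl
  · rw [eq_top_iff]
    intro x _
    obtain ⟨y, rfl⟩ := Submodule.Quotient.mk_surjective (maxSub c h) x
    have hy : y ∈ Submodule.span (VirAlg c) {vac c h} := by
      rw [(vac_hw c h).gen]
      exact Submodule.mem_top
    obtain ⟨a, rfl⟩ := Submodule.mem_span_singleton.1 hy
    rw [← key]
    exact Submodule.smul_mem _ _ (Submodule.mem_span_singleton_self _)

section level2

variable {c h : ℂ} {M : Type*} [AddCommGroup M] [Module (VirAlg c) M] [Module ℂ M]
    [IsScalarTower ℂ (VirAlg c) M]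

theorem L1_word {v : M} (hv : IsHW (c := c) h v) :
    Lg c 1 • Lg c 1 • Lg c (-1) • Lg c (-1) • v = (4 * h * (2 * h + 1)) • v := by
  have e1 : Lg c 1 • Lg c (-1) • v = (2 * h) • v := by
    rw [Lg_comm, hv.pos 1 one_pos, smul_zero, zero_add]
    have : (1 : ℤ) + -1 = 0 := by norm_num
    rw [this, if_pos rfl, hv.zero, smul_smul, ← add_smul]
    congr 1
    push_cast
    ring
  have e0 : Lg c 0 • Lg c (-1) • v = (h + 1) • Lg c (-1) • v := by
    rw [Lg_comm, hv.zero, smul_comm', if_neg (by norm_num), zero_smul, add_zero]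
    have : (0 : ℤ) + -1 = -1 := by norm_num
    rw [this, ← add_smul]
    congr 1
    push_cast
    ring
  have e2 : Lg c 1 • Lg c (-1) • Lg c (-1) • v = (4 * h + 2) • Lg c (-1) • v := by
    rw [Lg_comm, e1, smul_comm']
    have : (1 : ℤ) + -1 = 0 := by norm_num
    rw [this, if_pos rfl, e0, smul_smul, ← add_smul, ← add_smul]
    congr 1
    push_cast
    ring
  rw [e2, smul_comm', e1, smul_smul]
  congr 1
  ring

end level2

theorem word_ne_zero {c h : ℂ} (h0 : vac c h ≠ 0) (hh : 4 * h * (2 * h + 1) ≠ 0) :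
    Lg c (-1) • Lg c (-1) • vir c h ≠ 0 := by
  intro hw
  have h1 : Lg c (-1) • Lg c (-1) • vac c h ∈ maxSub c h :=
    (Submodule.Quotient.mk_eq_zero (maxSub c h)).1 hw
  have h2 : Lg c 1 • Lg c 1 • Lg c (-1) • Lg c (-1) • vac c h ∈ maxSub c h :=
    Submodule.smul_mem _ _ (Submodule.smul_mem _ _ h1)
  rw [L1_word (vac_hw c h)] at h2
  have h3 := (maxSub c h).smul_mem (algebraMap ℂ (VirAlg c) (4 * h * (2 * h + 1))⁻¹) h2
  rw [algebraMap_smul, smul_smul, inv_mul_cancel₀ hh, one_smul] at h3
  exact vac_notMem h0 h3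

theorem dg_two {l : List ℕ} (h : dg l = 2) : l = [0, 0] ∨ l = [1] := by
  match l with
  | [] => simp [dg] at h
  | [i] =>
    simp only [dg] at h
    right
    congr 1
    omega
  | [i, j] =>
    simp only [dg] at h
    left
    have : i = 0 := by omega
    have : j = 0 := by omega
    simp_all
  | i :: j :: k :: l =>
    simp only [dg] at h
    omega

/-- The degree 2 part of the irreducible module is nonzero and finite-dimensional. -/
theorem irrDim_two_pos {c b μ h : ℂ} (hc : c = 1 - 12 * b ^ 2) (hh : h = 1 / 2 * μ ^ 2 - b * μ)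
    (hn : 4 * h * (2 * h + 1) ≠ 0) : 0 < irrDim c h 2 := by
  have hv := vir_hw c h
  have h0 : vac c h ≠ 0 := vac_ne_zero hc hh
  set w1 : Irr c h := wd c (vir c h) [0, 0] with hw1
  set w2 : Irr c h := wd c (vir c h) [1] with hw2
  have hle : degPart c h 2 ≤ Submodule.span ℂ {w1, w2} := by
    intro x hx
    have hx' : Lg c 0 • x = (h + (2 : ℕ) : ℂ) • x := hx
    obtain ⟨f, hf1, hf2⟩ := decomp hv x
    have h1 := indep' (c := c) h (f - Finsupp.single 2 x) (fun d => by
      rw [Finsupp.sub_apply, smul_sub, smul_sub, L0_span hv (hf1 d)]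
      congr 1
      by_cases hd : d = 2
      · subst hd
        rw [Finsupp.single_eq_same, hx']
      · rw [Finsupp.single_eq_of_ne hd, smul_zero, smul_zero]) (by
      rw [Finsupp.sum_sub_index (fun _ _ _ => rfl), hf2, Finsupp.sum_single_index rfl, sub_self])
    have h2 := congrArg (fun g : ℕ →₀ Irr c h => g 2) h1
    simp only [Finsupp.sub_apply, Finsupp.single_eq_same, Finsupp.zero_apply, sub_eq_zero] at h2
    rw [← h2]
    refine Submodule.span_mono ?_ (hf1 2)
    rintro _ ⟨l, hl, rfl⟩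
    rcases dg_two hl with rfl | rfl
    · exact Or.inl rfl
    · exact Or.inr rfl
  have hfin : Module.Finite ℂ (Submodule.span ℂ ({w1, w2} : Set (Irr c h))) :=
    Module.Finite.span_of_finite ℂ (Set.toFinite _)
  have hfin2 : Module.Finite ℂ (degPart c h 2) :=
    Submodule.finiteDimensional_of_le hle
  have hmem : w1 ∈ degPart c h 2 := by
    have := L0_wd hv [0, 0]
    exact this
  have hne : w1 ≠ 0 := by
    have h3 := word_ne_zero h0 hn
    have h4 : w1 = Lg c (-1) • Lg c (-1) • vir c h := by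
      rw [hw1]
      simp only [wd]
      norm_num
    rw [h4]
    exact h3
  have hnt : Nontrivial (degPart c h 2) := ⟨⟨⟨w1, hmem⟩, 0, fun h5 => hne (congrArg Subtype.val h5)⟩⟩
  exact Module.finrank_pos

end Pool.Agent.Monster
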